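import Pool.Agent.helper78.HFN.Spec

set_option autoImplicit false

open Polynomial Module

namespace Pool.Agent.HFN

noncomputable section

theorem DIR_dX_dvd {f g : AA} (h : f ∣ g) (hg : g ≠ 0) : dX f ≤ dX g := by
  obtain ⟨k, rfl⟩ := h
  have hf : f ≠ 0 := left_ne_zero_of_mul hg
  have hk : k ≠ 0 := right_ne_zero_of_mul hg
  rw [dX_mul hf hk]
  omega

theorem DIR_dY_dvd {f g : AA} (h : f ∣ g) (hg : g ≠ 0) : dY f ≤ dY g := by
  obtain ⟨k, rfl⟩ := h
  have hf : f ≠ 0 := left_ne_zero_of_mul hg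
  have hk : k ≠ 0 := right_ne_zero_of_mul hg
  rw [dY_mul hf hk]
  omega

theorem DIR_fl_cons (p : AA × ℕ) (L : List (AA × ℕ)) : (fl (p :: L)).prod = p.1 ^ p.2 * (fl L).prod := by
  have e : fl (p :: L) = List.replicate p.2 p.1 ++ fl L := by
    simp [fl]
  rw [e, List.prod_append, List.prod_replicate]

theorem DIR_fl_ne (L : List (AA × ℕ)) (h : ∀ p ∈ L, p.1 ≠ 0) : (fl L).prod ≠ 0 := by
  induction L with
  | nil => simp [fl]
  | cons p L ih =>
    rw [DIR_fl_cons]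
    exact mul_ne_zero (pow_ne_zero _ (h p List.mem_cons_self)) (ih fun q hq => h q (List.mem_cons_of_mem _ hq))

theorem DIR_fl_dX (L : List (AA × ℕ)) (h : ∀ p ∈ L, p.1 ≠ 0) (h1 : ∀ p ∈ L, 1 ≤ p.2) :
    ((L.map Prod.fst).map dX).sum ≤ dX (fl L).prod ∧ ((L.map Prod.fst).map dY).sum ≤ dY (fl L).prod := by
  induction L with
  | nil => simp [fl]
  | cons p L ih =>
    have hp := h p List.mem_cons_self
    have hp1 := h1 p List.mem_cons_self
    have hL : ∀ q ∈ L, q.1 ≠ 0 := fun q hq => h q (List.mem_cons_of_mem _ hq)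
    obtain ⟨i1, i2⟩ := ih hL fun q hq => h1 q (List.mem_cons_of_mem _ hq)
    rw [DIR_fl_cons, dX_mul (pow_ne_zero _ hp) (DIR_fl_ne L hL), dY_mul (pow_ne_zero _ hp) (DIR_fl_ne L hL), dX_pow, dY_pow]
    simp only [List.map_cons, List.sum_cons]
    have a1 : dX p.1 ≤ p.2 * dX p.1 := Nat.le_mul_of_pos_left _ hp1
    have a2 : dY p.1 ≤ p.2 * dY p.1 := Nat.le_mul_of_pos_left _ hp1
    exact ⟨add_le_add a1 i1, add_le_add a2 i2⟩

theorem DIR_mem_fl {L : List (AA × ℕ)} {E : AA} (h : E ∈ fl L) : E ∈ L.map Prod.fst := by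
  unfold fl at h
  obtain ⟨p, hp, h1⟩ := List.mem_flatMap.1 h
  have h2 := List.eq_of_mem_replicate h1
  rw [h2]
  exact List.mem_map_of_mem hp

theorem DIR (hFXB : FXB_stmt) (hFAC : FAC_stmt) (hLOW : LOW_stmt) (hEXB : EXB_stmt) (hUPP : UPP_stmt) (hBZT : BZT_stmt) : DIR_stmt := by
  classical
  intro Z S T hS hT hS2 hT2 hST
  set r := Z.card with hr
  obtain ⟨p, hp⟩ : ∃ p, p = S / 2 := ⟨_, rfl⟩
  obtain ⟨q, hq⟩ : ∃ q, q = T / 2 := ⟨_, rfl⟩
  have hp1 : S ≤ 2 * p + 1 := by omega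
  have hq1 : T ≤ 2 * q + 1 := by omega
  have hp2 : 2 * p ≤ S := by omega
  have hq2 : 2 * q ≤ T := by omega
  have hpq : 3 * r < (p + 1) * (q + 1) := by
    have h1 : S * T ≤ (2 * (p + 1)) * (2 * (q + 1)) := Nat.mul_le_mul (by omega) (by omega)
    have h2 : (2 * (p + 1)) * (2 * (q + 1)) = 4 * ((p + 1) * (q + 1)) := by ring
    rw [h2] at h1
    omega
  obtain ⟨B, G1, G2, hB, hG1, ⟨h11, h12⟩, ⟨h21, h22⟩, hrel, hbp, hbq, hsum, hcube⟩ := hFXB Z p q hpq
  obtain ⟨L₀, hL1, hL2, hass⟩ := hFAC B hB hcube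
  have hne : ∀ p ∈ L₀, p.1 ≠ 0 := fun x hx => (hL2.1 x.1 (List.mem_map_of_mem hx)).ne_zero
  have hP0 : (fl L₀).prod ≠ 0 := DIR_fl_ne L₀ hne
  have hdX : dX (fl L₀).prod = dX B := le_antisymm (DIR_dX_dvd hass.symm.dvd hB) (DIR_dX_dvd hass.dvd hP0)
  have hdY : dY (fl L₀).prod = dY B := le_antisymm (DIR_dY_dvd hass.symm.dvd hB) (DIR_dY_dvd hass.dvd hP0)
  obtain ⟨hβ, hβ'⟩ := DIR_fl_dX L₀ hne fun x hx => (hL1 x hx).1
  rw [hdX] at hβ
  rw [hdY] at hβ'
  obtain ⟨u, hu⟩ := hass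
  -- unit multiples
  have hmul : ∀ G : AA, (fl L₀).prod * ((↑u⁻¹ : AA) * G) = B * G := by
    intro G
    rw [← hu, mul_assoc, ← mul_assoc (u : AA), Units.mul_inv, one_mul]
  have hrel' : IsRelPrime ((↑u⁻¹ : AA) * G1) ((↑u⁻¹ : AA) * G2) := by
    intro d hd1 hd2
    have e : ∀ G : AA, d ∣ (↑u⁻¹ : AA) * G → d ∣ G := by
      intro G h
      have := Dvd.dvd.mul_left h (u : AA)
      rwa [← mul_assoc, Units.mul_inv, one_mul] at this
    exact hrel (e _ hd1) (e _ hd2)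
  have hV1 : (↑u⁻¹ : AA) * G1 ∈ V (p - dX B) (q - dY B) := by
    rw [← hdX, ← hdY]
    exact mem_V_of_mul hP0 (by rw [hmul]; exact h11)
  have hV2 : (↑u⁻¹ : AA) * G2 ∈ V (p - dX B) (q - dY B) := by
    rw [← hdX, ← hdY]
    exact mem_V_of_mul hP0 (by rw [hmul]; exact h21)
  set b := dX B with hb
  set b' := dY B with hb'
  have hTS : T * b + S * b' ≤ 12 * r := by
    have a1 : T * b ≤ 2 * ((q + 1) * b) := by
      have : T * b ≤ (2 * (q + 1)) * b := Nat.mul_le_mul_right _ (by omega)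
      rw [mul_assoc] at this
      exact this
    have a2 : S * b' ≤ 2 * ((p + 1) * b') := by
      have : S * b' ≤ (2 * (p + 1)) * b' := Nat.mul_le_mul_right _ (by omega)
      rw [mul_assoc] at this
      exact this
    omega
  refine ⟨L₀.map Prod.fst, hL2, ?_, ?_, ?_⟩
  · refine le_trans (add_le_add (Nat.mul_le_mul_left _ hβ) (Nat.mul_le_mul_left _ hβ')) hTS
  · intro E hE hEn
    have hEp : Prime E := hE.prime
    have hEB : ¬ E ∣ B := by
      intro h
      have h1 : E ∣ (fl L₀).prod := by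
        rw [← hu]
        exact Dvd.dvd.mul_right h _
      obtain ⟨a, ha, hEa⟩ := (Prime.dvd_prod_iff hEp).1 h1
      have ha' := DIR_mem_fl ha
      exact hEn a ha' ((hE.dvd_irreducible_iff_associated (hL2.1 a ha')).1 hEa)
    have hG : ∃ G, B * G ∈ V p q ∧ B * G ∈ JJ Z two ∧ ¬ E ∣ G := by
      by_cases h1 : E ∣ G1
      · by_cases h2 : E ∣ G2
        · exact absurd (hrel h1 h2) hE.not_isUnit
        · exact ⟨G2, h21, h22, h2⟩
      · exact ⟨G1, h11, h12, h1⟩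
    obtain ⟨G, g1, g2, g3⟩ := hG
    have hEf : ¬ E ∣ B * G := by
      intro h
      rcases hEp.dvd_or_dvd h with h | h
      · exact hEB h
      · exact g3 h
    have h3 := hBZT E (B * G) hE hEf p q g1 (Z.filter fun z => ev z E = 0) ∅ (Finset.disjoint_empty_right _) (fun z hz => by
      obtain ⟨z1, z2⟩ := Finset.mem_filter.1 hz
      exact ⟨z2, (g2 z z1).2 (le_refl 2)⟩) (fun z hz => absurd hz (Finset.notMem_empty z))
    rw [Finset.card_empty, add_zero] at h3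
    rw [← hp, ← hq]
    exact h3
  · intro i j hi hj
    have hlow := hLOW Z (fl L₀) (fun E hE => hL2.1 E (DIR_mem_fl hE)) ((↑u⁻¹ : AA) * G1) ((↑u⁻¹ : AA) * G2) (p - b) (q - b') i j
      (by rw [hmul]; exact h12) (by rw [hmul]; exact h22) hrel' hV1 hV2 (by rw [hdX]; omega) (by rw [hdY]; omega)
      (by rw [hdX]; omega) (by rw [hdY]; omega)
    rw [hdX, hdY] at hlow
    have hexb := hEXB Z i j L₀ (fun x hx => (hL1 x hx).2) two (fun z => le_refl 2)
    have hupp := hUPP Z (L₀.map Prod.fst) hL2 i j (by omega) (by omega)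
    have hX : (L₀.map fun x => ex (nn Z x.1) (ip i j x.1)).sum = ((L₀.map Prod.fst).map fun E => ex (nn Z E) (ip i j E)).sum := by
      rw [List.map_map]
      rfl
    rw [hX] at hexb
    obtain ⟨X, hXd⟩ : ∃ X, X = ((L₀.map Prod.fst).map fun E => ex (nn Z E) (ip i j E)).sum := ⟨_, rfl⟩
    rw [← hXd] at hexb hupp
    have hββ : ((L₀.map Prod.fst).map dX).sum * ((L₀.map Prod.fst).map dY).sum ≤ b * b' := Nat.mul_le_mul hβ hβ'
    have hFL : FL Z (L₀.map Prod.fst) i j = 3 * (r : ℤ) - (X : ℤ) := by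
      unfold FL
      rw [hXd]
    have hHH : HH Z i j = (((i + 1) * (j + 1) : ℕ) : ℤ) - (hd (JJ Z two) i j : ℤ) := rfl
    have hdiff : |HH Z i j - FL Z (L₀.map Prod.fst) i j| ≤ ((3 * (b * b') + 2 * (b + b') : ℕ) : ℤ) := by
      rw [hFL, hHH, abs_le]
      constructor
      · push_cast at hlow ⊢
        have l1 : (hd (JJ Z two) i j : ℤ) + 3 * (r : ℤ) ≤ ((i + 1) * (j + 1) : ℕ) + 3 * ((b : ℤ) * b') + (exs Z i j (fl L₀) two : ℤ) := by
          exact_mod_cast hlow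
        have l2 : (exs Z i j (fl L₀) two : ℤ) ≤ X := by exact_mod_cast hexb
        push_cast at l1
        nlinarith [Int.natCast_nonneg b, Int.natCast_nonneg b']
      · have l3 : (((i + 1) * (j + 1) : ℕ) : ℤ) + X ≤ (hd (JJ Z two) i j : ℤ) + 3 * r + ((2 * (b + b') + 3 * (b * b') : ℕ) : ℤ) := by
          have l4 : (i + 1) * (j + 1) + X ≤ hd (JJ Z two) i j + 3 * r + (2 * (b + b') + 3 * (b * b')) := by omega
          exact_mod_cast l4
        push_cast at l3 ⊢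
        linarith
    have hST0 : (0 : ℤ) ≤ (S : ℤ) * T := by positivity
    refine le_trans (mul_le_mul_of_nonneg_right hdiff hST0) ?_
    have hTSz : (T : ℤ) * b + S * b' ≤ 12 * r := by exact_mod_cast hTS
    have hSz : (S : ℤ) ≤ 2 * r := by exact_mod_cast hS2
    have hTz : (T : ℤ) ≤ 2 * r := by exact_mod_cast hT2
    have n1 : (0 : ℤ) ≤ (T : ℤ) * b := by positivity
    have n2 : (0 : ℤ) ≤ (S : ℤ) * b' := by positivity
    have k1 : 4 * (((T : ℤ) * b) * (S * b')) ≤ 144 * (r : ℤ) ^ 2 := by nlinarith [sq_nonneg ((T : ℤ) * b - S * b')]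
    have k2 : (S : ℤ) * (T * b) + T * (S * b') ≤ 24 * (r : ℤ) ^ 2 := by
      have m1 : (S : ℤ) * (T * b) ≤ 2 * r * (T * b) := mul_le_mul_of_nonneg_right hSz n1
      have m2 : (T : ℤ) * (S * b') ≤ 2 * r * (S * b') := mul_le_mul_of_nonneg_right hTz n2
      have m3 : (2 * (r : ℤ)) * (T * b + S * b') ≤ 2 * r * (12 * r) := mul_le_mul_of_nonneg_left hTSz (by positivity)
      nlinarith
    push_cast
    have e : (3 * ((b : ℤ) * b') + 2 * (b + b')) * (S * T) = 3 * ((T * b) * (S * b')) + 2 * (S * (T * b) + T * (S * b')) := by ring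
    rw [e]
    linarith

end

end Pool.Agent.HFN
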