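import Pool.Agent.helper78.HFN.Spec

set_option autoImplicit false

namespace Pool.Agent.HFN

theorem exb_lam2 (Z : Finset (ℂ × ℂ)) (κ : ℂ × ℂ → ℕ) (C : AA) (h : ∀ z, κ z ≤ 2) : lam Z κ C ≤ 2 * nn Z C := by
  classical
  unfold lam nn
  have h1 := Finset.sum_le_card_nsmul (Z.filter fun z => ev z C = 0) κ 2 (fun z _ => h z)
  rw [smul_eq_mul, mul_comm] at h1
  exact h1

theorem exb_lam1 (Z : Finset (ℂ × ℂ)) (κ : ℂ × ℂ → ℕ) (C : AA) (h : ∀ z, κ z ≤ 2) : lam Z (res κ C) C ≤ nn Z C := by
  classical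
  unfold lam nn
  have h1 := Finset.sum_le_card_nsmul (Z.filter fun z => ev z C = 0) (res κ C) 1 (fun z hz => by
    have hz0 := (Finset.mem_filter.1 hz).2
    have h2 := h z
    have h3 : 1 ≤ od C z := by
      unfold od
      split_ifs with ha
      · omega
      · exact le_refl _
    unfold res
    omega)
  rw [smul_eq_mul, mul_one] at h1
  exact h1

theorem exb_res (κ : ℂ × ℂ → ℕ) (C : AA) (h : ∀ z, κ z ≤ 2) : ∀ z, res κ C z ≤ 2 := fun z =>
  le_trans (Nat.sub_le _ _) (h z)

theorem EXB : EXB_stmt := by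
  intro Z i j L
  induction L with
  | nil =>
    intro _ κ _
    simp [fl, exs]
  | cons p L ih =>
    intro hL κ hκ
    have hp := hL p (List.mem_cons_self)
    have hL' : ∀ q ∈ L, q.2 ≤ 2 := fun q hq => hL q (List.mem_cons_of_mem _ hq)
    have e : fl (p :: L) = List.replicate p.2 p.1 ++ fl L := by
      simp [fl]
    rw [e, List.map_cons, List.sum_cons]
    have h3 : p.2 = 0 ∨ p.2 = 1 ∨ p.2 = 2 := by omega
    rcases h3 with h0 | h0 | h0
    · rw [h0]
      have := ih hL' κ hκ
      simp only [List.replicate_zero, List.nil_append]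
      omega
    · rw [h0]
      have h4 := ih hL' (res κ p.1) (exb_res κ p.1 hκ)
      have h5 := exb_lam2 Z κ p.1 hκ
      simp only [List.replicate_one, List.cons_append, List.nil_append, exs]
      have h9 : ex (nn Z p.1) (ip i j p.1) = (2 * nn Z p.1 - ip i j p.1) + (nn Z p.1 - ip i j p.1) := rfl
      rw [h9]
      omega
    · rw [h0]
      have h4 := ih hL' (res (res κ p.1) p.1) (exb_res _ p.1 (exb_res κ p.1 hκ))
      have h5 := exb_lam2 Z κ p.1 hκ
      have h6 := exb_lam1 Z κ p.1 hκ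
      have e2 : List.replicate 2 p.1 ++ fl L = p.1 :: p.1 :: fl L := rfl
      rw [e2]
      simp only [exs]
      have h9 : ex (nn Z p.1) (ip i j p.1) = (2 * nn Z p.1 - ip i j p.1) + (nn Z p.1 - ip i j p.1) := rfl
      rw [h9]
      omega

end Pool.Agent.HFN
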