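import Pool.Agent.helper78.HFN.Spec

/-!
# Row MAIN of project HFN (MP_3221a1_ag): the assembly
-/

set_option autoImplicit false

open Polynomial Module

namespace Pool.Agent.HFN

noncomputable section

theorem MAIN (hMDR : MDR_stmt) (hREA : REA_stmt) (hAFF : AFF_stmt) : Main_stmt := by
  intro r S T hS hT hS2 hT2 hST
  constructor
  · intro Y hY
    obtain ⟨Z, hZ, hH⟩ := hAFF.1 Y
    rw [hY] at hZ
    subst hZ
    obtain ⟨m, a, b, n, hD, hb⟩ := hMDR Z S T hS hT hS2 hT2 hST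
    refine ⟨m, a, b, n, hD, fun i j hi hj => ?_⟩
    rw [hH]
    exact hb i j hi hj
  · intro m a b n hD
    obtain ⟨Z, hZ, hb⟩ := hREA r m a b n S T hS hT hS2 hT2 hST hD
    obtain ⟨Y, hY, hH⟩ := hAFF.2 Z
    refine ⟨Y, by rw [hY, hZ], fun i j hi hj => ?_⟩
    rw [hH]
    exact hb i j hi hj

end

end Pool.Agent.HFN
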