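import Pool.Agent.helper16.HFN.AFF
import Pool.Agent.helper54.HFN.ASG
import Pool.Agent.helper24.HFN.BZT
import Pool.Agent.helper64.HFN.CHA
import Pool.Agent.helper24.HFN.CMP
import Pool.Agent.helper3.HFN.CNQ
import Pool.Agent.helper80.HFN.CPR
import Pool.Agent.helper56.HFN.CUR
import Pool.Agent.helper35.HFN.DIM
import Pool.Agent.helper78.HFN.DIR
import Pool.Agent.helper61.HFN.ELI
import Pool.Agent.helper78.HFN.EXB
import Pool.Agent.helper56.HFN.FAC
import Pool.Agent.helper29.HFN.FXB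
import Pool.Agent.helper74.HFN.IND
import Pool.Agent.helper2.HFN.INF
import Pool.Agent.helper52.HFN.INT
import Pool.Agent.helper80.HFN.LOW
import Pool.Agent.helper78.HFN.MAIN
import Pool.Agent.helper44.HFN.MDR
import Pool.Agent.helper90.HFN.ODM
import Pool.Agent.helper84.HFN.ONE
import Pool.Agent.helper68.HFN.REA
import Pool.Agent.helper79.HFN.RES
import Pool.Agent.helper25.HFN.RSL
import Pool.Agent.helper45.HFN.SEC
import Pool.Agent.helper51.HFN.SL1
import Pool.Agent.helper31.HFN.SL2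
import Pool.Agent.helper14.HFN.SNG
import Pool.Agent.helper28.HFN.STP
import Pool.Agent.helper93.HFN.TWO
import Pool.Agent.helper68.HFN.TYP
import Pool.Agent.helper50.HFN.UPA
import Pool.Agent.helper48.HFN.UPB
import Pool.Agent.helper96.HFN.UPP
import Pool.Agent.helper70.HFN.WTL

/-!
# Project HFN (MP_3221a1_ag): the assembly of the theorem
-/

set_option autoImplicit false

namespace Pool.Agent.HFN

theorem a_ODM : ODM_stmt := ODM
theorem a_RES : RES_stmt := RES
theorem a_INT : INT_stmt := INT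
theorem a_DIM : DIM_stmt := DIM a_INT
theorem a_ELI : ELI_stmt := ELI
theorem a_ONE : ONE_stmt := ONE a_ELI
theorem a_TWO : TWO_stmt := TWO a_ONE
theorem a_IND : IND_stmt := IND a_ONE a_TWO a_DIM
theorem a_CNQ : CNQ_stmt := CNQ
theorem a_BZT : BZT_stmt := BZT a_CNQ a_INT
theorem a_INF : INF_stmt := INF
theorem a_SEC : SEC_stmt := SEC a_BZT a_INF
theorem a_STP : STP_stmt := STP a_SEC a_RES
theorem a_TYP : TYP_stmt := TYP
theorem a_SNG : SNG_stmt := SNG a_BZT a_TYP
theorem a_RSL : RSL_stmt := RSL a_RES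
theorem a_CHA : CHA_stmt := CHA a_STP
theorem a_WTL : WTL_stmt := WTL
theorem a_LOW : LOW_stmt := LOW a_CHA a_RSL a_IND a_WTL a_SNG a_TYP
theorem a_EXB : EXB_stmt := EXB
theorem a_CPR : CPR_stmt := CPR
theorem a_FXB : FXB_stmt := FXB a_CPR a_DIM a_RES
theorem a_FAC : FAC_stmt := FAC
theorem a_UPA : UPA_stmt := UPA a_DIM a_RES
theorem a_UPB : UPB_stmt := UPB a_ODM a_BZT
theorem a_UPP : UPP_stmt := UPP a_UPA a_UPB
theorem a_DIR : DIR_stmt := DIR a_FXB a_FAC a_LOW a_EXB a_UPP a_BZT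
theorem a_ASG : ASG_stmt := ASG a_BZT
theorem a_MDR : MDR_stmt := MDR a_DIR a_ASG a_TYP
theorem a_CUR : CUR_stmt := CUR
theorem a_SL1 : SL1_stmt := SL1 a_INF a_BZT
theorem a_SL2 : SL2_stmt := SL2 a_SL1
theorem a_CMP : CMP_stmt := CMP
theorem a_REA : REA_stmt := REA a_CUR a_SL2 a_DIR a_CMP
theorem a_AFF : AFF_stmt := AFF
theorem a_MAIN : Main_stmt := MAIN a_MDR a_REA a_AFF

/-- the theorem -/
theorem main_all : Main_stmt := a_MAIN

end Pool.Agent.HFN
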