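import Pool.Agent.helper97.FP.Main

/-!
# Project HFN (MP_3221a1_ag): Hilbert functions of double points up to lower order. Definitions and basic facts

`AA = ℂ[x][y]`, `V i j` = polynomials of degree `≤ i` in `x` and `≤ j` in `y`.
-/

set_option autoImplicit false

open Polynomial Module

namespace Pool.Agent.HFN

noncomputable section

/-- the ring `ℂ[x][y]` -/
abbrev AA : Type := Polynomial (Polynomial ℂ)

/-- exchange of the variables -/
def sw : AA ≃ₐ[ℂ] AA := Polynomial.Bivariate.swap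

/-- degree in `x` -/
def dX (f : AA) : ℕ := (sw f).natDegree

/-- degree in `y` -/
def dY (f : AA) : ℕ := f.natDegree

/-- value at `z` -/
def ev (z : ℂ × ℂ) (f : AA) : ℂ := Polynomial.evalEval z.1 z.2 f

/-- derivative with respect to `y` -/
def Dy (f : AA) : AA := derivative f

/-- derivative with respect to `x` -/
def Dx (f : AA) : AA := sw (derivative (sw f))

/-- vanishing to order `2` at `z` -/
def Db (z : ℂ × ℂ) (f : AA) : Prop := ev z f = 0 ∧ ev z (Dx f) = 0 ∧ ev z (Dy f) = 0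

open Classical in
/-- the order of `f` at `z`, `2` if it is larger -/
def od (f : AA) (z : ℂ × ℂ) : ℕ := if Db z f then 2 else if ev z f = 0 then 1 else 0

/-- the condition of order `k` at `z` (`k = 0, 1, 2`) -/
def Kc (k : ℕ) (z : ℂ × ℂ) (f : AA) : Prop := (1 ≤ k → ev z f = 0) ∧ (2 ≤ k → Db z f)

/-! ## Basic facts -/

@[simp] theorem sw_sw (f : AA) : sw (sw f) = f := Polynomial.Bivariate.swap_swap_apply f

theorem sw_coeff (f : AA) (k l : ℕ) : ((sw f).coeff k).coeff l = (f.coeff l).coeff k := by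
  induction f using Polynomial.induction_on' with
  | add p q hp hq => rw [map_add, coeff_add, coeff_add, hp, hq, coeff_add, coeff_add]
  | monomial n p =>
    induction p using Polynomial.induction_on' with
    | add p q hp hq =>
      rw [map_add, map_add, coeff_add, coeff_add, hp, hq, coeff_add, coeff_add]
    | monomial m a =>
      rw [sw, Polynomial.Bivariate.swap_monomial_monomial]
      rw [coeff_monomial, coeff_monomial]
      by_cases h1 : m = k
      · by_cases h2 : n = l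
        · rw [if_pos h1, if_pos h2, coeff_monomial, coeff_monomial, if_pos h2, if_pos h1]
        · rw [if_pos h1, if_neg h2, coeff_monomial, if_neg h2, coeff_zero]
      · by_cases h2 : n = l
        · rw [if_neg h1, if_pos h2, coeff_monomial, if_neg h1, coeff_zero]
        · rw [if_neg h1, if_neg h2, coeff_zero, coeff_zero]

@[simp] theorem dX_sw (f : AA) : dX (sw f) = dY f := by
  unfold dX dY
  rw [sw_sw]

@[simp] theorem dY_sw (f : AA) : dY (sw f) = dX f := rfl

@[simp] theorem ev_zero (z : ℂ × ℂ) : ev z 0 = 0 := evalEval_zero _ _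
@[simp] theorem ev_one (z : ℂ × ℂ) : ev z 1 = 1 := evalEval_one _ _
@[simp] theorem ev_add (z : ℂ × ℂ) (f g : AA) : ev z (f + g) = ev z f + ev z g := evalEval_add _ _ _ _
@[simp] theorem ev_sub (z : ℂ × ℂ) (f g : AA) : ev z (f - g) = ev z f - ev z g := evalEval_sub _ _ _ _
@[simp] theorem ev_neg (z : ℂ × ℂ) (f : AA) : ev z (-f) = - ev z f := evalEval_neg _ _ _
@[simp] theorem ev_mul (z : ℂ × ℂ) (f g : AA) : ev z (f * g) = ev z f * ev z g := evalEval_mul _ _ _ _
@[simp] theorem ev_pow (z : ℂ × ℂ) (f : AA) (n : ℕ) : ev z (f ^ n) = ev z f ^ n := evalEval_pow _ _ _ _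
@[simp] theorem ev_smul (z : ℂ × ℂ) (c : ℂ) (f : AA) : ev z (c • f) = c * ev z f := evalEval_smul _ _ _ _
theorem ev_C (z : ℂ × ℂ) (p : ℂ[X]) : ev z (C p) = p.eval z.1 := evalEval_C _ _ _
theorem ev_X (z : ℂ × ℂ) : ev z (X : AA) = z.2 := evalEval_X _ _
theorem ev_def (z : ℂ × ℂ) (f : AA) : ev z f = (f.eval (C z.2)).eval z.1 := rfl

theorem ev_sw (z : ℂ × ℂ) (f : AA) : ev z (sw f) = ev z.swap f := by
  have h := Polynomial.Bivariate.aevalAeval_swap (A := ℂ) (R := ℂ) z.1 z.2 f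
  rw [coe_aevalAeval_eq_evalEval, coe_aevalAeval_eq_evalEval] at h
  exact h

theorem ev_sum {ι : Type} (z : ℂ × ℂ) (s : Finset ι) (f : ι → AA) : ev z (∑ k ∈ s, f k) = ∑ k ∈ s, ev z (f k) :=
  evalEval_finsetSum _ _ _ _

theorem ev_prod {ι : Type} (z : ℂ × ℂ) (s : Finset ι) (f : ι → AA) : ev z (∏ k ∈ s, f k) = ∏ k ∈ s, ev z (f k) :=
  evalEval_prod _ _ _ _

@[simp] theorem Dy_zero : Dy 0 = 0 := derivative_zero
@[simp] theorem Dx_zero : Dx 0 = 0 := by simp [Dx]
@[simp] theorem Dy_add (f g : AA) : Dy (f + g) = Dy f + Dy g := derivative_add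
@[simp] theorem Dx_add (f g : AA) : Dx (f + g) = Dx f + Dx g := by simp [Dx]
@[simp] theorem Dy_sub (f g : AA) : Dy (f - g) = Dy f - Dy g := derivative_sub
@[simp] theorem Dx_sub (f g : AA) : Dx (f - g) = Dx f - Dx g := by simp [Dx]
@[simp] theorem Dy_smul (c : ℂ) (f : AA) : Dy (c • f) = c • Dy f := derivative_smul _ _
@[simp] theorem Dx_smul (c : ℂ) (f : AA) : Dx (c • f) = c • Dx f := by
  unfold Dx
  rw [map_smul, derivative_smul, map_smul]
theorem Dy_mul (f g : AA) : Dy (f * g) = Dy f * g + f * Dy g := derivative_mul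
theorem Dx_mul (f g : AA) : Dx (f * g) = Dx f * g + f * Dx g := by
  unfold Dx
  rw [map_mul, derivative_mul, map_add, map_mul, map_mul, sw_sw, sw_sw]
theorem Dx_sw (f : AA) : Dx (sw f) = sw (Dy f) := by
  unfold Dx Dy
  rw [sw_sw]
theorem Dy_sw (f : AA) : Dy (sw f) = sw (Dx f) := by
  unfold Dx Dy
  rw [sw_sw]
@[simp] theorem Dy_C (p : ℂ[X]) : Dy (C p) = 0 := derivative_C
theorem Dx_C (p : ℂ[X]) : Dx (C p) = C (derivative p) := by
  unfold Dx sw
  rw [Polynomial.Bivariate.swap_C, derivative_map, Polynomial.Bivariate.swap_map_C]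
theorem Dy_X : Dy (X : AA) = 1 := derivative_X
theorem Dx_X : Dx (X : AA) = 0 := by
  unfold Dx sw
  rw [Polynomial.Bivariate.swap_Y, derivative_C, map_zero]

theorem dY_mul {f g : AA} (hf : f ≠ 0) (hg : g ≠ 0) : dY (f * g) = dY f + dY g := natDegree_mul hf hg
theorem dX_mul {f g : AA} (hf : f ≠ 0) (hg : g ≠ 0) : dX (f * g) = dX f + dX g := by
  unfold dX
  rw [map_mul, natDegree_mul]
  · exact fun h => hf ((map_eq_zero_iff sw sw.injective).1 h)
  · exact fun h => hg ((map_eq_zero_iff sw sw.injective).1 h)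
theorem dY_mul_le (f g : AA) : dY (f * g) ≤ dY f + dY g := natDegree_mul_le
theorem dX_mul_le (f g : AA) : dX (f * g) ≤ dX f + dX g := by
  unfold dX
  rw [map_mul]
  exact natDegree_mul_le
@[simp] theorem dY_zero : dY 0 = 0 := natDegree_zero
@[simp] theorem dX_zero : dX 0 = 0 := by simp [dX]
@[simp] theorem dY_one : dY 1 = 0 := natDegree_one
@[simp] theorem dX_one : dX 1 = 0 := by simp [dX]
theorem dY_pow (f : AA) (n : ℕ) : dY (f ^ n) = n * dY f := natDegree_pow _ _
theorem dX_pow (f : AA) (n : ℕ) : dX (f ^ n) = n * dX f := by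
  unfold dX
  rw [map_pow, natDegree_pow]
theorem dY_C (p : ℂ[X]) : dY (C p) = 0 := natDegree_C _
theorem dX_C (p : ℂ[X]) : dX (C p) = p.natDegree := by
  unfold dX sw
  rw [Polynomial.Bivariate.swap_C, natDegree_map_eq_of_injective (C_injective)]
theorem dY_X : dY (X : AA) = 1 := natDegree_X
theorem dX_X : dX (X : AA) = 0 := by
  unfold dX sw
  rw [Polynomial.Bivariate.swap_Y, natDegree_C]

/-- the polynomials of degree `≤ i` in `x` and `≤ j` in `y` -/
def V (i j : ℕ) : Submodule ℂ AA where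
  carrier := {f | dX f ≤ i ∧ dY f ≤ j}
  zero_mem' := by simp
  add_mem' := by
    rintro f g ⟨h1, h2⟩ ⟨h3, h4⟩
    refine ⟨?_, le_trans (natDegree_add_le _ _) (max_le h2 h4)⟩
    unfold dX at h1 h3 ⊢
    rw [map_add]
    exact le_trans (natDegree_add_le _ _) (max_le h1 h3)
  smul_mem' := by
    rintro c f ⟨h1, h2⟩
    refine ⟨?_, le_trans (natDegree_smul_le _ _) h2⟩
    unfold dX at h1 ⊢
    rw [map_smul]
    exact le_trans (natDegree_smul_le _ _) h1

theorem mem_V {f : AA} {i j : ℕ} : f ∈ V i j ↔ dX f ≤ i ∧ dY f ≤ j := Iff.rfl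

theorem V_mono {i j i' j' : ℕ} (h : i ≤ i') (h' : j ≤ j') : V i j ≤ V i' j' :=
  fun _ hf => ⟨le_trans hf.1 h, le_trans hf.2 h'⟩

theorem mul_mem_V {f g : AA} {i j i' j' : ℕ} (hf : f ∈ V i j) (hg : g ∈ V i' j') : f * g ∈ V (i + i') (j + j') :=
  ⟨le_trans (dX_mul_le f g) (add_le_add hf.1 hg.1), le_trans (dY_mul_le f g) (add_le_add hf.2 hg.2)⟩

theorem mul_mem_V_iff {f g : AA} (hf : f ≠ 0) (hg : g ≠ 0) {i j : ℕ} :
    f * g ∈ V i j ↔ dX f + dX g ≤ i ∧ dY f + dY g ≤ j := by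
  rw [mem_V, dX_mul hf hg, dY_mul hf hg]

/-- division in `V`: if `f g ∈ V i j` and `f, g ≠ 0` then `g ∈ V (i - dX f) (j - dY f)` -/
theorem mem_V_of_mul {f g : AA} (hf : f ≠ 0) {i j : ℕ} (h : f * g ∈ V i j) : g ∈ V (i - dX f) (j - dY f) := by
  by_cases hg : g = 0
  · rw [hg]
    exact Submodule.zero_mem _
  rw [mul_mem_V_iff hf hg] at h
  exact ⟨by omega, by omega⟩

theorem sw_mem_V {f : AA} {i j : ℕ} : sw f ∈ V i j ↔ f ∈ V j i := by
  rw [mem_V, mem_V, dX_sw, dY_sw]
  exact And.comm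

theorem mem_V_coeff {f : AA} {i j : ℕ} : f ∈ V i j ↔ ∀ k l : ℕ, i < k ∨ j < l → (f.coeff l).coeff k = 0 := by
  constructor
  · rintro ⟨h1, h2⟩ k l (h | h)
    · rw [← sw_coeff, coeff_eq_zero_of_natDegree_lt (lt_of_le_of_lt h1 h), coeff_zero]
    · rw [coeff_eq_zero_of_natDegree_lt (lt_of_le_of_lt h2 h), coeff_zero]
  · intro h
    constructor
    · refine natDegree_le_iff_coeff_eq_zero.2 fun N hN => ?_
      ext l
      rw [sw_coeff, h N l (Or.inl hN), coeff_zero]
    · refine natDegree_le_iff_coeff_eq_zero.2 fun N hN => ?_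
      ext l
      rw [h l N (Or.inr hN), coeff_zero]

/-- coefficient arrays and polynomials -/
def mk (i j : ℕ) : (Fin (i + 1) × Fin (j + 1) → ℂ) →ₗ[ℂ] AA where
  toFun v := ∑ p, monomial (p.2 : ℕ) (monomial (p.1 : ℕ) (v p))
  map_add' v w := by simp [Finset.sum_add_distrib]
  map_smul' c v := by simp [Finset.smul_sum, smul_monomial]

theorem mk_coeff (i j : ℕ) (v : Fin (i + 1) × Fin (j + 1) → ℂ) (p : Fin (i + 1) × Fin (j + 1)) :
    ((mk i j v).coeff p.2).coeff p.1 = v p := by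
  show ((∑ q, monomial (q.2 : ℕ) (monomial (q.1 : ℕ) (v q)) : AA).coeff p.2).coeff p.1 = v p
  rw [finsetSum_coeff, finsetSum_coeff, Finset.sum_eq_single p]
  · rw [coeff_monomial, if_pos rfl, coeff_monomial, if_pos rfl]
  · intro q _ hq
    rw [coeff_monomial]
    by_cases h2 : (q.2 : ℕ) = p.2
    · rw [if_pos h2, coeff_monomial, if_neg]
      intro h1
      exact hq (Prod.ext (Fin.ext h1) (Fin.ext h2))
    · rw [if_neg h2, coeff_zero]
  · intro h
    exact absurd (Finset.mem_univ p) h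

theorem mk_mem (i j : ℕ) (v : Fin (i + 1) × Fin (j + 1) → ℂ) : mk i j v ∈ V i j := by
  refine Submodule.sum_mem _ fun p _ => ?_
  rw [mem_V_coeff]
  intro k l h
  rw [coeff_monomial]
  by_cases h2 : (p.2 : ℕ) = l
  · rw [if_pos h2, coeff_monomial, if_neg]
    intro h1
    rcases h with h | h <;> omega
  · rw [if_neg h2, coeff_zero]

theorem mk_injective (i j : ℕ) : Function.Injective (mk i j) := by
  intro v w h
  funext p
  rw [← mk_coeff i j v p, ← mk_coeff i j w p, h]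

theorem mk_range (i j : ℕ) : LinearMap.range (mk i j) = V i j := by
  apply le_antisymm
  · rintro _ ⟨v, rfl⟩
    exact mk_mem i j v
  · intro f hf
    refine ⟨fun p => (f.coeff p.2).coeff p.1, ?_⟩
    have h1 := mk_mem i j (fun p => (f.coeff p.2).coeff p.1)
    rw [mem_V_coeff] at h1 hf
    ext l k
    by_cases hk : i < k
    · rw [h1 k l (Or.inl hk), hf k l (Or.inl hk)]
    by_cases hl : j < l
    · rw [h1 k l (Or.inr hl), hf k l (Or.inr hl)]
    exact mk_coeff i j _ (⟨k, by omega⟩, ⟨l, by omega⟩)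

theorem finrank_V (i j : ℕ) : finrank ℂ (V i j) = (i + 1) * (j + 1) := by
  rw [← mk_range, LinearMap.finrank_range_of_inj (mk_injective i j), finrank_fintype_fun_eq_card, Fintype.card_prod,
    Fintype.card_fin, Fintype.card_fin]

instance V_fin (i j : ℕ) : FiniteDimensional ℂ (V i j) := by
  apply FiniteDimensional.of_finrank_pos
  rw [finrank_V]
  positivity

instance V_inf_fin (i j : ℕ) (W : Submodule ℂ AA) : FiniteDimensional ℂ (V i j ⊓ W : Submodule ℂ AA) :=
  Submodule.finiteDimensional_of_le (inf_le_left : V i j ⊓ W ≤ V i j)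

theorem Dy_mem_V {f : AA} {i j : ℕ} (h : f ∈ V i j) : Dy f ∈ V i (j - 1) := by
  rw [mem_V_coeff] at h ⊢
  intro k l hkl
  unfold Dy
  rw [coeff_derivative]
  have h1 : (f.coeff (l + 1)).coeff k = 0 := by
    apply h
    rcases hkl with h2 | h2
    · exact Or.inl h2
    · exact Or.inr (by omega)
  have h2 : ((l : ℂ[X]) + 1) = C ((l : ℂ) + 1) := by simp
  rw [h2, coeff_mul_C, h1, zero_mul]

theorem Dx_mem_V {f : AA} {i j : ℕ} (h : f ∈ V i j) : Dx f ∈ V (i - 1) j := by
  have h1 : Dy (sw f) ∈ V j (i - 1) := Dy_mem_V (sw_mem_V.2 h)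
  rw [Dy_sw] at h1
  exact sw_mem_V.1 h1

theorem Db_sw (z : ℂ × ℂ) (f : AA) : Db z (sw f) ↔ Db z.swap f := by
  unfold Db
  rw [Dx_sw, Dy_sw, ev_sw, ev_sw, ev_sw]
  tauto

/-! ## Ideals of points with multiplicity at most two, and the counting functions -/

/-- the ideal of the polynomials with the condition of order `κ z` at all `z ∈ Z` -/
def JJ (Z : Finset (ℂ × ℂ)) (κ : ℂ × ℂ → ℕ) : Ideal AA where
  carrier := {f | ∀ z ∈ Z, Kc (κ z) z f}
  zero_mem' := by
    intro z _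
    simp [Kc, Db]
  add_mem' := by
    intro f g hf hg z hz
    obtain ⟨h1, h2⟩ := hf z hz
    obtain ⟨h3, h4⟩ := hg z hz
    refine ⟨fun h => ?_, fun h => ?_⟩
    · rw [ev_add, h1 h, h3 h, add_zero]
    · obtain ⟨a1, a2, a3⟩ := h2 h
      obtain ⟨b1, b2, b3⟩ := h4 h
      refine ⟨?_, ?_, ?_⟩
      · rw [ev_add, a1, b1, add_zero]
      · rw [Dx_add, ev_add, a2, b2, add_zero]
      · rw [Dy_add, ev_add, a3, b3, add_zero]
  smul_mem' := by
    intro c f hf z hz
    obtain ⟨h1, h2⟩ := hf z hz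
    refine ⟨fun h => ?_, fun h => ?_⟩
    · rw [smul_eq_mul, ev_mul, h1 h, mul_zero]
    · obtain ⟨a1, a2, a3⟩ := h2 h
      refine ⟨?_, ?_, ?_⟩
      · rw [smul_eq_mul, ev_mul, a1, mul_zero]
      · rw [smul_eq_mul, Dx_mul, ev_add, ev_mul, ev_mul, a1, a2, mul_zero, mul_zero, add_zero]
      · rw [smul_eq_mul, Dy_mul, ev_add, ev_mul, ev_mul, a1, a3, mul_zero, mul_zero, add_zero]

theorem mem_JJ {Z : Finset (ℂ × ℂ)} {κ : ℂ × ℂ → ℕ} {f : AA} : f ∈ JJ Z κ ↔ ∀ z ∈ Z, Kc (κ z) z f := Iff.rfl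

/-- dimension of the part of degrees `≤ (i, j)` of an ideal -/
def hd (J : Ideal AA) (i j : ℕ) : ℕ := finrank ℂ (V i j ⊓ J.restrictScalars ℂ : Submodule ℂ AA)

/-- number of conditions of order `k` -/
def wt (k : ℕ) : ℕ := if k = 0 then 0 else if k = 1 then 1 else 3

/-- number of conditions -/
def Wt (Z : Finset (ℂ × ℂ)) (κ : ℂ × ℂ → ℕ) : ℕ := ∑ z ∈ Z, wt (κ z)

open Classical in
/-- number of the points of `Z` on the curve `C` -/
def nn (Z : Finset (ℂ × ℂ)) (C : AA) : ℕ := (Z.filter fun z => ev z C = 0).card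

open Classical in
/-- number of the points of `Z` which are singular on `C` -/
def sg (Z : Finset (ℂ × ℂ)) (C : AA) : ℕ := (Z.filter fun z => Db z C).card

open Classical in
/-- the conditions of order `κ` restricted to `C` -/
def lam (Z : Finset (ℂ × ℂ)) (κ : ℂ × ℂ → ℕ) (C : AA) : ℕ := ∑ z ∈ Z.filter (fun z => ev z C = 0), κ z

/-- intersection number of `C` with a curve of degrees `(i, j)` -/
def ip (i j : ℕ) (C : AA) : ℕ := i * dY C + j * dX C

/-- the residual conditions -/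
def res (κ : ℂ × ℂ → ℕ) (C : AA) : ℂ × ℂ → ℕ := fun z => κ z - od C z

/-- the constant function `2` -/
def two : ℂ × ℂ → ℕ := fun _ => 2

/-- upper bound for the sum of the dimensions of the restrictions -/
def bnd (Z : Finset (ℂ × ℂ)) (i j : ℕ) : List AA → (ℂ × ℂ → ℕ) → ℕ
  | [], _ => 0
  | C :: l, κ => (ip i j C + 1 - lam Z κ C) + bnd Z i j l (res κ C)

/-- sum of the excesses `(λ - D.C)⁺` -/
def exs (Z : Finset (ℂ × ℂ)) (i j : ℕ) : List AA → (ℂ × ℂ → ℕ) → ℕ
  | [], _ => 0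
  | C :: l, κ => (lam Z κ C - ip i j C) + exs Z i j l (res κ C)

/-- the list with multiplicities, written out -/
def fl (L : List (AA × ℕ)) : List AA := L.flatMap fun p => List.replicate p.2 p.1

/-- the excess of a curve with `n` points and intersection number `d` -/
def ex (n d : ℕ) : ℕ := (2 * n - d) + (n - d)

/-- a list of different irreducible curves -/
def Cvs (L : List AA) : Prop := (∀ C ∈ L, Irreducible C) ∧ L.Pairwise fun C C' => ¬ Associated C C'

/-- the explicit function of the list `L` of curves -/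
def FL (Z : Finset (ℂ × ℂ)) (L : List AA) (i j : ℕ) : ℤ := 3 * (Z.card : ℤ) - ((L.map fun C => ex (nn Z C) (ip i j C)).sum : ℕ)

/-- the Hilbert function of the double points at `Z` -/
def HH (Z : Finset (ℂ × ℂ)) (i j : ℕ) : ℤ := (((i + 1) * (j + 1) : ℕ) : ℤ) - hd (JJ Z two) i j

/-- the bidegrees of irreducible curves -/
def Ty (a b : ℕ) : Prop := (a = 1 ∧ b = 0) ∨ (a = 0 ∧ b = 1) ∨ (1 ≤ a ∧ 1 ≤ b)

/-- the data: bidegrees `(a_t, b_t)` of irreducible curves and numbers `n_t` with sum at most `r` -/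
structure Data (r m : ℕ) (a b n : Fin m → ℕ) : Prop where
  ty : ∀ t, Ty (a t) (b t)
  sum_le : ∑ t, n t ≤ r

/-- the explicit functions -/
def Fn (r m : ℕ) (a b n : Fin m → ℕ) (i j : ℕ) : ℤ := 3 * (r : ℤ) - (∑ t, ex (n t) (i * b t + j * a t) : ℕ)

end

end Pool.Agent.HFN
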