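import Pool.Agent.helper78.HFN.Spec

set_option autoImplicit false

open Filter Topology

namespace Pool.Agent.HFN

noncomputable section

theorem NRM : NRM_stmt := by
  have hA : Tendsto (fun r : ℕ => ((r : ℝ)) ^ (-(1 / 4) : ℝ)) atTop (𝓝 0) :=
    (tendsto_rpow_neg_atTop (by norm_num : (0 : ℝ) < 1 / 4)).comp tendsto_natCast_atTop_atTop
  have hB : Tendsto (fun r : ℕ => ((r : ℝ)) ^ (-(1 / 2) : ℝ)) atTop (𝓝 0) :=
    (tendsto_rpow_neg_atTop (by norm_num : (0 : ℝ) < 1 / 2)).comp tendsto_natCast_atTop_atTop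
  have hC : Tendsto (fun r : ℕ => ((r : ℝ))⁻¹) atTop (𝓝 0) := tendsto_inv_atTop_nhds_zero_nat
  have h1 : Tendsto (fun r : ℕ => ((⌈(r : ℝ) ^ (3 / 4 : ℝ)⌉₊ : ℕ) : ℝ) / r) atTop (𝓝 0) := by
    have hAC := hA.add hC
    rw [add_zero] at hAC
    refine squeeze_zero' (Eventually.of_forall fun r => by positivity) ?_ hAC
    filter_upwards [eventually_ge_atTop 1] with r hr
    have hr0 : (0 : ℝ) < r := by exact_mod_cast hr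
    have h2 := (Nat.ceil_lt_add_one (by positivity : (0 : ℝ) ≤ (r : ℝ) ^ (3 / 4 : ℝ))).le
    rw [div_le_iff₀ hr0, add_mul, inv_mul_cancel₀ hr0.ne']
    have h3 : (r : ℝ) ^ (-(1 / 4) : ℝ) * r = (r : ℝ) ^ (3 / 4 : ℝ) := by
      nth_rewrite 2 [← Real.rpow_one (r : ℝ)]
      rw [← Real.rpow_add hr0]
      norm_num
    rw [h3]
    exact h2
  have h2 : Tendsto (fun r : ℕ => (r : ℝ) / ((⌈(r : ℝ) ^ (3 / 4 : ℝ)⌉₊ : ℕ) : ℝ) ^ 2) atTop (𝓝 0) := by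
    refine squeeze_zero' (Eventually.of_forall fun r => by positivity) ?_ hB
    filter_upwards [eventually_ge_atTop 1] with r hr
    have hr0 : (0 : ℝ) < r := by exact_mod_cast hr
    have h4 := Nat.le_ceil ((r : ℝ) ^ (3 / 4 : ℝ))
    have h5 : (0 : ℝ) < (r : ℝ) ^ (3 / 4 : ℝ) := by positivity
    have h6 : (0 : ℝ) < ((⌈(r : ℝ) ^ (3 / 4 : ℝ)⌉₊ : ℕ) : ℝ) ^ 2 := by positivity
    rw [div_le_iff₀ h6]
    have h7 : ((r : ℝ) ^ (3 / 4 : ℝ)) ^ 2 ≤ ((⌈(r : ℝ) ^ (3 / 4 : ℝ)⌉₊ : ℕ) : ℝ) ^ 2 := by gcongr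
    have h8 : (r : ℝ) ^ (-(1 / 2) : ℝ) * ((r : ℝ) ^ (3 / 4 : ℝ)) ^ 2 = r := by
      rw [← Real.rpow_natCast ((r : ℝ) ^ (3 / 4 : ℝ)) 2, ← Real.rpow_mul hr0.le, ← Real.rpow_add hr0]
      norm_num
    have h9 : (0 : ℝ) ≤ (r : ℝ) ^ (-(1 / 2) : ℝ) := by positivity
    nlinarith [mul_le_mul_of_nonneg_left h7 h9]
  refine ⟨fun r => ⌈(r : ℝ) ^ (3 / 4 : ℝ)⌉₊, ?_, h1, h2⟩
  have e1 : ∀ᶠ r : ℕ in atTop, ((⌈(r : ℝ) ^ (3 / 4 : ℝ)⌉₊ : ℕ) : ℝ) / r < 1 := h1.eventually_lt_const (by norm_num)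
  have e2 : ∀ᶠ r : ℕ in atTop, (r : ℝ) / ((⌈(r : ℝ) ^ (3 / 4 : ℝ)⌉₊ : ℕ) : ℝ) ^ 2 < 1 / 100 := h2.eventually_lt_const (by norm_num)
  filter_upwards [e1, e2, eventually_ge_atTop 1] with r a1 a2 hr
  have hr0 : (0 : ℝ) < r := by exact_mod_cast hr
  have h5 : (0 : ℝ) < (r : ℝ) ^ (3 / 4 : ℝ) := by positivity
  have h4 := Nat.le_ceil ((r : ℝ) ^ (3 / 4 : ℝ))
  set t := ⌈(r : ℝ) ^ (3 / 4 : ℝ)⌉₊ with ht
  have ht0 : (0 : ℝ) < (t : ℝ) := lt_of_lt_of_le h5 h4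
  rw [div_lt_one hr0] at a1
  rw [div_lt_iff₀ (by positivity)] at a2
  have b1 : t < r := by exact_mod_cast a1
  have b2 : (100 * r : ℝ) < t * t := by nlinarith
  have b3 : 100 * r < t * t := by exact_mod_cast b2
  refine ⟨?_, by omega, b3.le⟩
  by_contra h
  have h10 : t ≤ 2 := by omega
  have h11 : t * t ≤ 2 * 2 := Nat.mul_le_mul h10 h10
  omega

end

end Pool.Agent.HFN
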