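import Pool.Agent.helper78.HFN.All
import Pool.Agent.helper78.HFN.NRM
import Pool.Agent.helper68.HFN.PHI
import Pool.Agent.helper34.HFN.CPT
import Pool.Agent.helper56.HFN.LM1
import Pool.Agent.helper11.HFN.LM2

/-!
# Project HFN (MP_3221a1_ag): the limit functions
-/

set_option autoImplicit false

namespace Pool.Agent.HFN

/-- the limits of the normalized Hilbert functions -/
theorem lim_all : Lim_stmt := fun h => ⟨LM1 NRM PHI (CPT PHI) main_all h, LM2 NRM PHI main_all h⟩

end Pool.Agent.HFN
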