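import Pool.Agent.helper78.HFN.Defs

/-!
# Project HFN (MP_3221a1_ag), rows `hfn:*`: Hilbert functions of double points of `ℙ¹ × ℙ¹` up to lower order

GOAL (`Main_stmt`). Let `3 ≤ S, T ≤ 2r`, `S T ≥ 100 r`. For every set `Y` of `r` points there are types `(a_t, b_t)` of irreducible curves and numbers
`n_t`, `∑ n_t ≤ r`, such that for all `i ≥ S`, `j ≥ T` the Hilbert function of `R/I_Y^(2)` is, up to an error of at most `264 r²/(S T)`,
`F(i,j) = 3r - ∑_t [(2n_t - (i b_t + j a_t))⁺ + (n_t - (i b_t + j a_t))⁺]`; and all such data occur. (`LIM`: so the limit functions are known.)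

IDEA. Affine model: `Z ⊂ ℂ²`, polynomials of bidegree `≤ (i,j)`. The FIXED CURVE `B` of the polynomials of bidegree `≤ (S/2, T/2)` which are double on `Z`
has small bidegree (dimension count), its residual scheme lies on two curves without common component, so it imposes independent conditions (Bezout in one
variable); on the components of `B` Bezout's theorem gives the number of conditions up to `O(dX B * dY B)`.

RULES. Row `XXX`: file `Pool/Agent/<seat>/HFN/XXX.lean`, `import Pool.Agent.helper78.HFN.Spec`, `set_option autoImplicit false`, `namespace Pool.Agent.HFN`, the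
open lines of this file, theorem line exactly as in the lock note, other rows only as hypotheses, auxiliary lemmas prefixed `XXX_`. No straight double
quotes, no `convert`, `congr!`, `native_decide`. The basic facts on `dX dY ev Dx Dy V JJ` are proved in `Pool/Agent/helper78/HFN/Defs.lean` (please read it first).
Land, note DONE path, one line to helper78. A doubtful statement: tell me at once.

NOTATION. `dX`, `dY` degrees in `x`, `y`; `V i j`; `ev z f` value; `Db z f` double zero; `od f z ∈ {0,1,2}` order; `Kc k z f` condition of order `k`;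
`JJ Z κ` ideal; `hd J i j = dim (V i j ⊓ J)`; `wt 0, 1, 2 = 0, 1, 3`; `Wt Z κ = ∑ wt (κ z)`; `ip i j C = i dY C + j dX C`; `nn`, `sg` numbers of points, of
singular points; `lam Z κ C = ∑_(z ∈ Z ∩ C) κ z`; `res κ C = κ - od C`; `two = 2`.
-/

set_option autoImplicit false

open Polynomial Module

namespace Pool.Agent.HFN

noncomputable section

/-! ## A. Local algebra -/

/-- **ODM** (short). Leibniz (`Dx_mul`, `Dy_mul`): if `f(z), g(z) ≠ 0` both sides are `0`; if `f(z) ≠ 0`, `g(z) = 0` then `D(fg)(z) = f(z) Dg(z)`; if both vanish `fg` is double. -/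
def ODM_stmt : Prop := ∀ (f g : AA) (z : ℂ × ℂ), od (f * g) z = min 2 (od f z + od g z)

/-- **RES** (short). Residual conditions. As in ODM: `B(z) ≠ 0`: `Kc k z (B g) ↔ Kc k z g`; `B(z) = 0`, `dB(z) ≠ 0`: `B g` always vanishes at `z`, `D(Bg)(z) = DB(z) g(z)`, so it is double iff `g(z) = 0`; `B` double: no condition. -/
def RES_stmt : Prop := ∀ (k : ℕ) (z : ℂ × ℂ) (B g : AA), k ≤ 2 → (Kc k z (B * g) ↔ Kc (k - od B z) z g)

/-- **INT** (medium). Interpolation. For `z₀ ∈ Z` let `Q = ∏_(z ∈ Z, z ≠ z₀) l_z²`, `l_z = C (X - C z.1)` if `z.1 ≠ z₀.1`, otherwise `X - C (C z.2)`: `Q(z₀) ≠ 0`, `Q` is double at all other `z ∈ Z`, degrees `≤ 2 (#Z - 1)`. `(u + v (x - x₀) + w (y - y₀)) Q` has at `z₀` the value `u Q`,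
the derivatives `u Q_x + v Q`, `u Q_y + w Q`: choose `u, v, w`; sum over `z₀ ∈ Z`. -/
def INT_stmt : Prop := ∀ (Z : Finset (ℂ × ℂ)) (α β γ : ℂ × ℂ → ℂ) (M N : ℕ), 2 * Z.card ≤ M → 2 * Z.card ≤ N →
  ∃ f ∈ V M N, ∀ z ∈ Z, ev z f = α z ∧ ev z (Dx f) = β z ∧ ev z (Dy f) = γ z

/-- **DIM** (medium). uses: INT. Rank-nullity for the linear map from `V M N` to the product over `z ∈ Z` of `ℂ^(wt (κ z))` given by the values (`κ z = 1`) and the values and two derivatives (`κ z = 2`); its kernel is `V M N ⊓ JJ Z κ`. Surjective for large `M, N` by INT. (Simplest codomain: `(Z → ℂ) × (Z₂ → ℂ) × (Z₂ → ℂ)`,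
with `Z₁ = {κ ≥ 1}`, `Z₂ = {κ = 2}` and `Wt = #Z₁ + 2 #Z₂`.) -/
def DIM_stmt : Prop := ∀ (Z : Finset (ℂ × ℂ)) (κ : ℂ × ℂ → ℕ), (∀ z, κ z ≤ 2) → ∀ M N : ℕ,
  (M + 1) * (N + 1) ≤ hd (JJ Z κ) M N + Wt Z κ ∧
  (2 * Z.card ≤ M → 2 * Z.card ≤ N → hd (JJ Z κ) M N + Wt Z κ = (M + 1) * (N + 1))

/-! ## B. Independence: two curves without common component -/

/-- **ELI** (medium). Elimination of `y`. `G2 = 0`: `G1` is a unit. `dY G1 = 0` or `dY G2 = 0`: `G1 = C d` or `G2 = C d`. Otherwise `q1 = dY G1`, `q2 = dY G2 ≥ 1`, `p = max (dX G1) (dX G2)`, `N = p (q1 + q2)`. The linear map `V N (q2-1) × V N (q1-1) → V (N+p) (q1+q2-1)`, `(u, v) ↦ u G1 + v G2`, is injective (`u G1 = - v G2` gives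
`G2 ∣ u` (`IsRelPrime`, the ring is a UFD), `dY u < dY G2`, so `u = 0`, `v = 0`), its image has dimension `(N+1)(q1+q2)`, and `V (N+p) 0` has dimension `N+p+1`; the sum is larger than `(N+p+1)(q1+q2)`, so the image contains an element `≠ 0` of `V (N+p) 0`, that is some `C d`.
(Or with Gauss's lemma: `G1, G2` are coprime in `K[Y]`, `K` the fraction field.) -/
def ELI_stmt : Prop := ∀ G1 G2 : AA, IsRelPrime G1 G2 → ∃ (u v : AA) (d : ℂ[X]), d ≠ 0 ∧ u * G1 + v * G2 = C d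

/-- **ONE** (medium, long). uses: ELI. `G1 = 0`: `G2` is a unit, `J = ⊤`, `finrank_V`. `G1 ≠ 0`: `d` from ELI; `c ∈ ℂ` with `d(c) ≠ 0`, `lc(G1)(c) ≠ 0` (`G1.leadingCoeff : ℂ[X]`). CLAIM: every `f ∈ V (m+1) n` is `(x - c) g + h`, `g ∈ V m n`, `h ∈ J ⊓ V (m+1) n`. Let `f_c = f.map (evalRingHom c) : ℂ[X]` (polynomials in `y`), `q1 = dY G1 =
deg (G1)_c`. `(G1)_c`, `(G2)_c` are coprime (`u_c (G1)_c + v_c (G2)_c = d(c)`), so `f_c = s (G1)_c + t (G2)_c`, and we may take `t` reduced modulo `(G1)_c`: `deg t < q1` or `t = 0`. Then `deg (t (G2)_c) ≤ q1 - 1 + q ≤ n`, so `deg s + q1 ≤ n` (or `s = 0`). `s(y) = s.map C`, `t(y) = t.map C ∈ AA`: `F = f - s(y) G1 - t(y) G2 ∈ V (m+1) n`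
(as `p ≤ m+1`), `F_c = 0`, so all coefficients of `F` are divisible by `X - C c`, `F = C (X - C c) * g`, `g ∈ V m n` (`mem_V_of_mul`). So the linear map `V m n → V (m+1) n ⧸ (J ⊓ V (m+1) n)`, `g ↦ (x - c) g`, is onto, and its kernel contains `J ⊓ V m n`: `(m+2)(n+1) - hd J (m+1) n ≤ (m+1)(n+1) - hd J m n`. -/
def ONE_stmt : Prop := ∀ (J : Ideal AA) (G1 G2 : AA) (p q m n : ℕ), G1 ∈ J → G2 ∈ J → IsRelPrime G1 G2 →
  G1 ∈ V p q → G2 ∈ V p q → p ≤ m + 1 → 2 * q ≤ n + 1 → hd J m n + (n + 1) ≤ hd J (m + 1) n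

/-- **TWO** (short-medium). uses: ONE. Exchange `x` and `y`: `J' = J.map sw` (or `comap`), `(V i j ⊓ J).map sw = V j i ⊓ J'`, so `hd J' j i = hd J i j`; `IsRelPrime (sw G1) (sw G2)` (divisibility is preserved by the automorphism `sw`, `sw_sw`). -/
def TWO_stmt : Prop := ∀ (J : Ideal AA) (G1 G2 : AA) (p q m n : ℕ), G1 ∈ J → G2 ∈ J → IsRelPrime G1 G2 →
  G1 ∈ V p q → G2 ∈ V p q → 2 * p ≤ m + 1 → q ≤ n + 1 → hd J m n + (m + 1) ≤ hd J m (n + 1)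

/-- **IND** (short-medium). uses: ONE, TWO, DIM. `J = JJ Z κ`. Induction: `hd J m n + k (n+1) ≤ hd J (m+k) n` (ONE), `hd J M n + l (M+1) ≤ hd J M (n+l)` (TWO), for `M = m + k`, `N = n + l ≥ 2 #Z` DIM: `hd J M N + Wt = (M+1)(N+1)`. -/
def IND_stmt : Prop := ∀ (Z : Finset (ℂ × ℂ)) (κ : ℂ × ℂ → ℕ), (∀ z, κ z ≤ 2) → ∀ (G1 G2 : AA) (p q m n : ℕ),
  G1 ∈ JJ Z κ → G2 ∈ JJ Z κ → IsRelPrime G1 G2 → G1 ∈ V p q → G2 ∈ V p q → 2 * p ≤ m + 1 → 2 * q ≤ n + 1 →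
  hd (JJ Z κ) m n + Wt Z κ ≤ (m + 1) * (n + 1)

/-! ## C. Bezout -/

/-- **CNQ** (medium). Count. `A1 = F V(M - dX F, N - dY F)`, `A2 = G V(M - dX G, N - dY G)`, subspaces of `V M N ⊓ span {F, G}`; multiplication is injective; `A1 ⊓ A2 = F G V(M - dX F - dX G, N - dY F - dY G)` (`F u = G v` implies `F ∣ v`, as `IsRelPrime F G`; `mem_V_of_mul`); `Submodule.finrank_sup_add_finrank_inf_eq`,
`finrank_V`, and the identity `(M'-a)(N'-b) + (M'-a')(N'-b') - (M'-a-a')(N'-b-b') = M'N' - (a b' + a' b)`. -/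
def CNQ_stmt : Prop := ∀ F G : AA, F ≠ 0 → G ≠ 0 → IsRelPrime F G → ∀ M N : ℕ, dX F + dX G ≤ M → dY F + dY G ≤ N →
  (M + 1) * (N + 1) ≤ hd (Ideal.span {F, G}) M N + (dX F * dY G + dX G * dY F)

/-- **BZT** (medium). uses: CNQ, INT. Bezout. `f ≠ 0`, `IsRelPrime C f`. `S = S1 ∪ S2`. For large `M, N` the linear map `V M N → (S → ℂ) × (S2 → ℂ)`, `g ↦ (g(z))_z, (τ_z g)_z`, with `τ_z g = C_y(z) g_x(z) - C_x(z) g_y(z)` if `(C_x(z), C_y(z)) ≠ 0` and `τ_z g = g_x(z)` otherwise, is onto by INT. It vanishes on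
`V M N ⊓ span {C, f}`: for `g = u C + v f`, `z ∈ S2`: `Dg(z) = u(z) DC(z)`. So `hd (span {C, f}) M N + #S + #S2 ≤ (M+1)(N+1)`, and CNQ gives `#S + #S2 ≤ dX C dY f + dX f dY C ≤ ip i j C`. -/
def BZT_stmt : Prop := ∀ C f : AA, Irreducible C → ¬ C ∣ f → ∀ i j : ℕ, f ∈ V i j → ∀ S2 S1 : Finset (ℂ × ℂ), Disjoint S2 S1 →
  (∀ z ∈ S2, ev z C = 0 ∧ Db z f) → (∀ z ∈ S1, ev z C = 0 ∧ ev z f = 0) → 2 * S2.card + S1.card ≤ ip i j C

/-- **INF** (short-medium). Curves are infinite. `dY C ≥ 1`: for every `c ∈ ℂ` with `lc(C)(c) ≠ 0` (all but finitely many) the polynomial `C.map (evalRingHom c)` has degree `≥ 1`, so a root. `dY C = 0`: `C = C p`, `p` is not constant (units are the nonzero constants), `p(x₀) = 0`: all `(x₀, y)`. -/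
def INF_stmt : Prop := ∀ E : AA, Irreducible E → {z : ℂ × ℂ | ev z E = 0}.Infinite

/-- **SEC** (medium). uses: BZT, INF. Sections on a curve. `k = ip i j E + 1 - (2 #S2 + #S1)`; `k` points `P` of `E` outside `S1 ∪ S2` (INF, `Set.Infinite.exists_subset_card_eq` for the set minus `S1 ∪ S2`). `W' = {f ∈ W : f = 0 on P}`: `finrank W ≤ finrank W' + k` (rank-nullity for `W → (P → ℂ)`). If `f ∈ W'` and `E ∤ f` then BZT for `S2`, `S1 ∪ P`:
`2 #S2 + #S1 + k ≤ ip i j E`, a contradiction. So `W' ≤ W ⊓ (E)`. -/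
def SEC_stmt : Prop := ∀ E : AA, Irreducible E → ∀ (i j : ℕ) (W : Submodule ℂ AA), W ≤ V i j → ∀ S2 S1 : Finset (ℂ × ℂ), Disjoint S2 S1 →
  (∀ z ∈ S2, ev z E = 0) → (∀ z ∈ S1, ev z E = 0) → (∀ f ∈ W, (∀ z ∈ S2, Db z f) ∧ ∀ z ∈ S1, ev z f = 0) →
  finrank ℂ W ≤ finrank ℂ (W ⊓ (Ideal.span {E}).restrictScalars ℂ : Submodule ℂ AA) + (ip i j E + 1 - (2 * S2.card + S1.card))

/-- **STP** (short-medium). uses: SEC, RES. One step. `W = V i j ⊓ JJ Z κ`, `S2 = {z ∈ Z : E(z) = 0, κ z = 2}`, `S1 = {.. κ z = 1}`: `lam Z κ E = 2 #S2 + #S1`. `W ⊓ (E)` is the image of `V (i - dX E) (j - dY E) ⊓ JJ Z (res κ E)` under the injective multiplication by `E` (`mem_V_of_mul`, `mul_mem_V`, RES). -/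
def STP_stmt : Prop := ∀ (Z : Finset (ℂ × ℂ)) (κ : ℂ × ℂ → ℕ), (∀ z, κ z ≤ 2) → ∀ E : AA, Irreducible E → ∀ i j : ℕ, dX E ≤ i → dY E ≤ j →
  hd (JJ Z κ) i j ≤ hd (JJ Z (res κ E)) (i - dX E) (j - dY E) + (ip i j E + 1 - lam Z κ E)

/-- **TYP** (short). `dY E = 0`: `E = C p`, `p` irreducible in `ℂ[X]`, so of degree `1` (`ℂ` is algebraically closed: `IsAlgClosed.degree_eq_one_of_irreducible`), `dX E = 1` (`dX_C`). `dX E = 0`: the same for `sw E`. -/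
def TYP_stmt : Prop := ∀ E : AA, Irreducible E → Ty (dX E) (dY E)

/-- **SNG** (short-medium). uses: BZT, TYP. Singular points. If `dY E = 0` then `E = C p`, `p` of degree `1` (TYP), `Dx E = C p'`, `p' ≠ 0` constant: no singular points. `dX E = 0`: the same with `sw` (`Db_sw`). If `dX E, dY E ≥ 1`: `f = Dx E ≠ 0` (`natDegree` of the derivative of `sw E`, characteristic `0`), `f ∈ V (dX E - 1) (dY E)`, so `E ∤ f`
(degrees, `dX_mul`), and BZT with `S2 = ∅`, `S1` = singular points: `≤ (dX E - 1) dY E + dY E dX E`. -/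
def SNG_stmt : Prop := ∀ (Z : Finset (ℂ × ℂ)) (E : AA), Irreducible E → sg Z E ≤ 2 * (dX E * dY E)

/-! ## D. The lower bound -/

/-- **RSL** (short). uses: RES. Induction on `l`: `(E :: l).foldl res κ = l.foldl res (res κ E)`, `(E :: l).prod * f = E * (l.prod * f)`; `res κ E ≤ κ ≤ 2`. -/
def RSL_stmt : Prop := ∀ (Z : Finset (ℂ × ℂ)) (l : List AA) (κ : ℂ × ℂ → ℕ), (∀ z, κ z ≤ 2) → ∀ f : AA,
  f ∈ JJ Z (l.foldl res κ) ↔ l.prod * f ∈ JJ Z κ

/-- **CHA** (short-medium). uses: STP. Induction on `l` (for all `κ, i', j'`). `dX (E :: l).prod = dX E + dX l.prod` (irreducible elements are not `0`, `l.prod ≠ 0`). Step: STP for `(i', j')`, `ip i' j' E ≤ ip i j E`. -/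
def CHA_stmt : Prop := ∀ (Z : Finset (ℂ × ℂ)) (l : List AA), (∀ E ∈ l, Irreducible E) → ∀ (κ : ℂ × ℂ → ℕ), (∀ z, κ z ≤ 2) →
  ∀ i' j' i j : ℕ, i' ≤ i → j' ≤ j → dX l.prod ≤ i' → dY l.prod ≤ j' →
  hd (JJ Z κ) i' j' ≤ hd (JJ Z (l.foldl res κ)) (i' - dX l.prod) (j' - dY l.prod) + bnd Z i j l κ

/-- **WTL** (short-medium; pure counting). Induction on `l`. For one `E`: `Wt Z κ ≤ lam Z κ E + Wt Z (res κ E) + sg Z E`: for every `z`: if `E(z) ≠ 0` then `od E z = 0`; if `od E z = 1`: `wt 2 = 3 = 2 + wt 1`, `wt 1 = 1 + wt 0`; if `Db z E`: `wt 2 = 3 = 2 + 0 + 1`. And `(d + 1 - λ) + λ ≤ d + 1 + (λ - d)` (truncated). -/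
def WTL_stmt : Prop := ∀ (Z : Finset (ℂ × ℂ)) (i j : ℕ) (l : List AA) (κ : ℂ × ℂ → ℕ), (∀ z, κ z ≤ 2) →
  bnd Z i j l κ + Wt Z κ ≤ Wt Z (l.foldl res κ) + (l.map (ip i j)).sum + l.length + exs Z i j l κ + (l.map (sg Z)).sum

/-- **LOW** (medium). uses: CHA, RSL, IND, WTL, SNG, TYP. `b = dX l.prod = ∑ dX`, `b' = dY l.prod = ∑ dY` (over `l`). `κ' = l.foldl res two ≤ 2`. CHA (`i' = i`, `j' = j`): `hd (JJ Z two) i j ≤ hd (JJ Z κ') (i-b) (j-b') + bnd`. `G1, G2 ∈ JJ Z κ'` (RSL), IND for `(i-b, j-b')`: `hd (JJ Z κ') (i-b) (j-b') + Wt Z κ' ≤ (i-b+1)(j-b'+1)`.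
`Wt Z two = 3 #Z`. WTL. `∑ ip i j = i b' + j b`, `(i-b+1)(j-b'+1) + i b' + j b + b + b' = (i+1)(j+1) + b b'`, `l.length ≤ b + b'` (TYP: `dX + dY ≥ 1`), `∑ sg ≤ ∑ 2 dX dY ≤ 2 b b'` (SNG). -/
def LOW_stmt : Prop := ∀ (Z : Finset (ℂ × ℂ)) (l : List AA), (∀ E ∈ l, Irreducible E) → ∀ (G1 G2 : AA) (p q i j : ℕ),
  l.prod * G1 ∈ JJ Z two → l.prod * G2 ∈ JJ Z two → IsRelPrime G1 G2 → G1 ∈ V p q → G2 ∈ V p q →
  dX l.prod ≤ i → dY l.prod ≤ j → 2 * p + dX l.prod ≤ i + 1 → 2 * q + dY l.prod ≤ j + 1 →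
  hd (JJ Z two) i j + 3 * Z.card ≤ (i + 1) * (j + 1) + 3 * (dX l.prod * dY l.prod) + exs Z i j l two

/-- **EXB** (short-medium; pure counting). Induction on `L`, `fl (p :: L) = List.replicate p.2 p.1 ++ fl L`, `p.2 = 0, 1, 2`. First copy of `E`: `lam Z κ E ≤ 2 nn Z E`; second copy: `res κ E ≤ 1` at the points of `E` (`od E z ≥ 1`), so `lam ≤ nn Z E`. (`ex n d = (2n - d) + (n - d)`.) -/
def EXB_stmt : Prop := ∀ (Z : Finset (ℂ × ℂ)) (i j : ℕ) (L : List (AA × ℕ)), (∀ p ∈ L, p.2 ≤ 2) → ∀ κ : ℂ × ℂ → ℕ, (∀ z, κ z ≤ 2) →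
  exs Z i j (fl L) κ ≤ (L.map fun p => ex (nn Z p.1) (ip i j p.1)).sum

/-! ## E. The fixed curve -/

/-- **CPR** (medium; pure algebra). Greatest common divisor of a space of polynomials. `f₀ ∈ U`, `f₀ ≠ 0`; common divisors `B` of all `f ∈ U` divide `f₀`, so `dX B + dY B ≤ dX f₀ + dY f₀`; take `B` with `dX B + dY B` maximal. `W = {g : B g ∈ U}`. No irreducible `E` divides all `g ∈ W` (otherwise `B E` is a common divisor, `dX E + dY E ≥ 1`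
as `E` is not a unit: degrees `(0,0)` means a nonzero constant). `G1 ∈ W`, `G1 ≠ 0` (`f₀ = B G1`). For the finitely many irreducible factors `E` of `G1` (up to units; `UniqueFactorizationMonoid.factors`), `{g ∈ W : E ∣ g}` is a proper subspace of `W`; `ℂ` is infinite, so there is `G2 ∈ W` in none of them
(`Subspace.biUnion_ne_univ_of_top_notMem` or a similar lemma, for subspaces of `W`). -/
def CPR_stmt : Prop := ∀ (U : Submodule ℂ AA) (p q : ℕ), U ≤ V p q → U ≠ ⊥ → ∃ B G1 G2 : AA, B ≠ 0 ∧ G1 ≠ 0 ∧ (∀ f ∈ U, B ∣ f) ∧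
  B * G1 ∈ U ∧ B * G2 ∈ U ∧ IsRelPrime G1 G2

/-- **FXB** (medium). uses: CPR, DIM, RES. The fixed curve. `U = V p q ⊓ JJ Z two`; DIM (1): `(p+1)(q+1) ≤ hd + 3 #Z`, so `U ≠ ⊥`; CPR. `B G1 ≠ 0` is in `V p q`, so `b = dX B ≤ p`, `b' = dY B ≤ q`. `U = B U'`, `U' ≤ V (p-b) (q-b')`, so `hd ≤ (p-b+1)(q-b'+1)` and `(q+1) b + (p+1) b' ≤ 3 #Z + b b'`; `2 b b' ≤ (q+1) b + (p+1) b'`.
Cubes: let `E` be irreducible, `B = E^3 B₀`. `E ∤ G` for `G = G1` or `G = G2` (IsRelPrime). `f = E^2 B₀ G ∈ V p q` (`E f = B G ∈ V p q`), and `f ∈ JJ Z two`: if `E(z) = 0` then `E^2` is double at `z`; if `E(z) ≠ 0` use RES for `E f` (`od E z = 0`). So `B ∣ f`, `E ∣ G` after cancellation: contradiction. -/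
def FXB_stmt : Prop := ∀ (Z : Finset (ℂ × ℂ)) (p q : ℕ), 3 * Z.card < (p + 1) * (q + 1) → ∃ B G1 G2 : AA, B ≠ 0 ∧ G1 ≠ 0 ∧
  (B * G1 ∈ V p q ∧ B * G1 ∈ JJ Z two) ∧ (B * G2 ∈ V p q ∧ B * G2 ∈ JJ Z two) ∧ IsRelPrime G1 G2 ∧ dX B ≤ p ∧ dY B ≤ q ∧
  (q + 1) * dX B + (p + 1) * dY B ≤ 6 * Z.card ∧ ∀ E : AA, Irreducible E → ¬ E ^ 3 ∣ B

/-- **FAC** (short-medium; pure algebra). Factorization, written out as a list. Induction on `dX B + dY B` (or on the number of irreducible factors): `B` a unit: `L = []`. Otherwise `E ∣ B` irreducible, `B = E^e B'`, `E ∤ B'`, `e = 1` or `2` (no cube); the list `L'` of `B'` and `(E, e) :: L'`; `E` is not associated to a member of `L'` (they divide `B'`). -/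
def FAC_stmt : Prop := ∀ B : AA, B ≠ 0 → (∀ E : AA, Irreducible E → ¬ E ^ 3 ∣ B) → ∃ L : List (AA × ℕ), (∀ p ∈ L, 1 ≤ p.2 ∧ p.2 ≤ 2) ∧
  Cvs (L.map Prod.fst) ∧ Associated B (fl L).prod

/-! ## F. The upper bound -/

/-- **UPA** (short-medium). uses: DIM, RES. Multiplication by `B` maps `V (i - dX B) (j - dY B) ⊓ JJ Z (res two B)` injectively into `V i j ⊓ JJ Z two` (RES), and DIM (1) for `res two B`. -/
def UPA_stmt : Prop := ∀ (Z : Finset (ℂ × ℂ)) (B : AA) (i j : ℕ), B ≠ 0 → dX B ≤ i → dY B ≤ j →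
  (i + 1 - dX B) * (j + 1 - dY B) ≤ hd (JJ Z two) i j + Wt Z (res two B)

/-- the number of conditions on `C` for the multiplicity `k` -/
def cc (k : ℕ) : ℕ := if k = 0 then 0 else if k = 1 then 2 else 3

/-- **UPB** (medium; counting). uses: ODM, BZT. Induction on `L`. New member `(E, e)`: `(fl ((E,e) :: L)).prod = E^e (fl L).prod`, `od = min 2 (e od E + od (fl L).prod)` (ODM). Only the points `z ∈ Z` with `E(z) = 0` matter. If `(fl L).prod (z) ≠ 0`: `wt 2 = 3` becomes at most `1` (`e = 1`), `0` (`e = 2`), so with `cc e = 2, 3` the sum does not grow. If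
`(fl L).prod (z) = 0` then `z` is on some member `E'` of `L`; the sum grows by at most `3`. The number of such `z` is at most `∑_(E' ∈ L) (dX E dY E' + dX E' dY E)` (BZT for `E`, `f = E'`, `S2 = ∅`; `E ∤ E'` as they are irreducible and not associated). `e = 0`: nothing changes. -/
def UPB_stmt : Prop := ∀ (Z : Finset (ℂ × ℂ)) (L : List (AA × ℕ)), (∀ p ∈ L, p.2 ≤ 2) → Cvs (L.map Prod.fst) →
  Wt Z (res two (fl L).prod) + (L.map fun p => cc p.2 * nn Z p.1).sum ≤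
    3 * Z.card + 3 * ((L.map fun p => dX p.1).sum * (L.map fun p => dY p.1).sum)

/-- **UPP** (medium). uses: UPA, UPB. `e(E) = 0, 1, 2` according to `2n ≤ d`; `n ≤ d < 2n`; `d < n` (`n = nn Z E`, `d = ip i j E`); `ex n d + e d = cc e n` in all cases. `L' = L.map fun E => (E, e E)`, `B = (fl L').prod`, `b1 = dX B = ∑ e dX ≤ 2 ∑ dX ≤ i`, `b1' = dY B`; `∑ e(E) ip i j E = i b1' + j b1`. UPA, UPB, and
`(i+1-b1)(j+1-b1') + i b1' + j b1 + b1 + b1' = (i+1)(j+1) + b1 b1'`. -/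
def UPP_stmt : Prop := ∀ (Z : Finset (ℂ × ℂ)) (L : List AA), Cvs L → ∀ i j : ℕ, 2 * (L.map dX).sum ≤ i → 2 * (L.map dY).sum ≤ j →
  (i + 1) * (j + 1) + (L.map fun E => ex (nn Z E) (ip i j E)).sum ≤ hd (JJ Z two) i j + 3 * Z.card +
    2 * ((L.map dX).sum + (L.map dY).sum) + 3 * ((L.map dX).sum * (L.map dY).sum)

/-! ## G. The direct half -/

/-- **DIR** (medium, long). uses: FXB, FAC, LOW, EXB, UPP, BZT. `r = #Z`, `p = S/2`, `q = T/2`: `S ≤ 2p+1`, `T ≤ 2q+1`, so `4 (p+1)(q+1) ≥ S T ≥ 100 r`, and `3r < (p+1)(q+1)` (`r ≥ 1`, as `3 ≤ S ≤ 2r`). FXB: `B, G1, G2`; FAC: `L₀`, `B ~ (fl L₀).prod =: B₁` (replace `G1, G2` by unit multiples, so `B₁ G1, B₁ G2 ∈ V p q ⊓ JJ Z two`);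
`L = L₀.map Prod.fst`. `b = dX B₁ = dX B = ∑ e dX ≥ (L.map dX).sum`, `b'` the same; `G1, G2 ∈ V (p-b) (q-b')` (`mem_V_of_mul`). (1) `T b + S b' ≤ 2 ((q+1) b + (p+1) b') ≤ 12 r`. (2) `E` irreducible, not associated to a member of `L`: `E ∤ B₁` (prime), `E ∤ G1` or `E ∤ G2`, so `E ∤ f = B₁ G ∈ V p q`; BZT with `S2 = Z ∩ E`.
(3) Let `i ≥ S`, `j ≥ T`. LOW for `l = fl L₀`, `(p-b, q-b')` (`2(p-b) + b ≤ 2p ≤ S ≤ i`), EXB: `HH ≥ FL - 3 b b'`. UPP (`2 (L.map dX).sum ≤ 2b ≤ 2p ≤ i`): `HH ≤ FL + 2 (b + b') + 3 b b'`. `4 S T b b' ≤ (T b + S b')² ≤ 144 r²`; `S T (b + b') = S (T b) + T (S b') ≤ 2r (T b + S b') ≤ 24 r²`: error `≤ (48 + 108) r²/(S T)`. -/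
def DIR_stmt : Prop := ∀ (Z : Finset (ℂ × ℂ)) (S T : ℕ), 3 ≤ S → 3 ≤ T → S ≤ 2 * Z.card → T ≤ 2 * Z.card → 100 * Z.card ≤ S * T →
  ∃ L : List AA, Cvs L ∧ T * (L.map dX).sum + S * (L.map dY).sum ≤ 12 * Z.card ∧
    (∀ E : AA, Irreducible E → (∀ E' ∈ L, ¬ Associated E E') → 2 * nn Z E ≤ ip (S / 2) (T / 2) E) ∧
    ∀ i j : ℕ, S ≤ i → T ≤ j → |HH Z i j - FL Z L i j| * (S * T) ≤ 156 * (Z.card : ℤ) ^ 2

/-- **ASG** (medium). uses: BZT. Every point is assigned to the first curve which contains it. Induction on `L` (from the end: `L ++ [E]`, or with `E` as the first one and the new numbers for the other curves): for `E :: L` apply the claim to `L` and `Z' = Z \ E`: `nn Z E' ≤ nn Z' E' + (dX E dY E' + dX E' dY E)` for `E' ∈ L` (BZT for `E`, `E'`,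
`S2 = ∅`), `n E = nn Z E`. (`∑ dX * ∑ dY` grows by at least `∑_(E' ∈ L) (dX E dY E' + dX E' dY E)`.) -/
def ASG_stmt : Prop := ∀ (L : List AA), Cvs L → ∀ Z : Finset (ℂ × ℂ), ∃ n : Fin L.length → ℕ, (∀ t, n t ≤ nn Z (L.get t)) ∧ ∑ t, n t ≤ Z.card ∧
  ∑ t, nn Z (L.get t) ≤ ∑ t, n t + (L.map dX).sum * (L.map dY).sum

/-- **MDR** (short-medium). uses: DIR, ASG, TYP. `L` from DIR, `n` from ASG, `a t = dX (L.get t)`, `b t = dY (L.get t)` (TYP). `0 ≤ ex n d - ex n' d ≤ 3 (n - n')` for `n' ≤ n`, so `|FL - Fn| ≤ 3 β β'`, `β = (L.map dX).sum`, `β' = (L.map dY).sum`, `4 S T β β' ≤ (T β + S β')² ≤ 144 r²`; `156 + 108 = 264`. -/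
def MDR_stmt : Prop := ∀ (Z : Finset (ℂ × ℂ)) (S T : ℕ), 3 ≤ S → 3 ≤ T → S ≤ 2 * Z.card → T ≤ 2 * Z.card → 100 * Z.card ≤ S * T →
  ∃ (m : ℕ) (a b n : Fin m → ℕ), Data Z.card m a b n ∧
    ∀ i j : ℕ, S ≤ i → T ≤ j → |HH Z i j - Fn Z.card m a b n i j| * (S * T) ≤ 264 * (Z.card : ℤ) ^ 2

/-! ## H. The converse -/

/-- **CUR** (medium). Curves. `cv 1 0 c = C (X - C c)`, `cv 0 1 c = X - C (C c)`, and for `a, b ≥ 1`: `cv a b c = X^b - C (C c * X * (X + 1)^(a-1))`: monic in `y` of degree `b`, Eisenstein at the prime `X` of `ℂ[X]` (`Polynomial.IsEisensteinAt.irreducible`; the constant term `- c X (X+1)^(a-1)` is not divisible by `X²`), `dX = a` (`sw` or coefficients).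
Not associated for `c ≠ c'`: units are constants, compare degrees and leading coefficients (`c` is determined: for `a, b ≥ 1` both are monic in `y`, so equal; for the other types compare degrees and values). -/
def CUR_stmt : Prop := ∃ cv : ℕ → ℕ → ℂ → AA, (∀ (a b : ℕ) (c : ℂ), Ty a b → c ≠ 0 → Irreducible (cv a b c) ∧ dX (cv a b c) = a ∧ dY (cv a b c) = b) ∧
  ∀ (a b a' b' : ℕ) (c c' : ℂ), Ty a b → Ty a' b' → c ≠ 0 → c' ≠ 0 → c ≠ c' → ¬ Associated (cv a b c) (cv a' b' c')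

/-- **SL1** (medium). uses: INF, BZT. The next point. For `f ∈ V a b` with `Cs t ∤ f` the set of the zeros of `f` on `Cs t` is finite (BZT: every finite subset has at most `ip a b (Cs t)` elements). `Cs t` has infinitely many points (INF); avoid `Z`, the zeros of `Cs t'`, `t' ≠ t` (`Cs t ∤ Cs t'`, irreducible and not associated), and for every `a ≤ p`, `b ≤ q`,
`S ⊆ Z` for which some `f` as in the hypothesis exists, the zeros of one such `f`: finitely many finite sets. -/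
def SL1_stmt : Prop := ∀ (m : ℕ) (Cs : Fin m → AA), (∀ t, Irreducible (Cs t)) → (∀ t t', t ≠ t' → ¬ Associated (Cs t) (Cs t')) →
  ∀ (t : Fin m) (Z : Finset (ℂ × ℂ)) (p q : ℕ), ∃ z : ℂ × ℂ, ev z (Cs t) = 0 ∧ z ∉ Z ∧ (∀ t', t' ≠ t → ev z (Cs t') ≠ 0) ∧
    ∀ a b : ℕ, a ≤ p → b ≤ q → ∀ S ⊆ Z, (∃ f ∈ V a b, (∀ w ∈ S, ev w f = 0) ∧ ¬ Cs t ∣ f) → ∃ f ∈ V a b, (∀ w ∈ S, ev w f = 0) ∧ ev z f ≠ 0

/-- **SL2** (medium). uses: SL1. All points. Invariant of `Z`: (INV) for all `a ≤ p`, `b ≤ q`, `S ⊆ Z` and irreducible `E ∈ V a b` not associated to a `Cs t`, zero on `S`: `finrank {f ∈ V a b : f = 0 on S} + #S ≤ (a+1)(b+1)`. Empty `Z`: `finrank_V`. Induction on `∑ n`: choose `t` with `n t ≥ 1`, `Z₀` for `n - e_t`, `z` from SL1, `Z = insert z Z₀`; `nn Z (Cs t) = n t`,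
the others do not change. (INV) for `S ∋ z`: `S₀ = S \ z`; `E` is zero on `S₀`, `Cs t ∤ E` (both irreducible, not associated), so by SL1 some `f ∈ V a b`, zero on `S₀`, has `f(z) ≠ 0`: the space for `S` is a proper subspace of the one for `S₀`. Last claim: `S = Z ∩ E`, `(a, b) = (dX E, dY E)`: the space contains `E ≠ 0`. -/
def SL2_stmt : Prop := ∀ (m : ℕ) (Cs : Fin m → AA), (∀ t, Irreducible (Cs t)) → (∀ t t', t ≠ t' → ¬ Associated (Cs t) (Cs t')) →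
  ∀ (n : Fin m → ℕ) (p q : ℕ), ∃ Z : Finset (ℂ × ℂ), Z.card = ∑ t, n t ∧ (∀ t, nn Z (Cs t) = n t) ∧
    ∀ E : AA, Irreducible E → (∀ t, ¬ Associated E (Cs t)) → dX E ≤ p → dY E ≤ q → nn Z E + 1 ≤ (dX E + 1) * (dY E + 1)

/-- **CMP** (medium). uses: (none; the list `L` is as in DIR). Comparison of `FL` and `Fn`. `Cs t` irreducible, pairwise not associated, `nn Z (Cs t) = n t`. Split `L` into the members associated to some `Cs t` and the others. If `E ∈ L` is associated to `Cs t`: same degrees, same zeros, `nn Z E = n t`, `ip` the same; different members belong to different `t`. A `Cs t`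
which is not associated to a member of `L`: `2 n t ≤ ip (S/2) (T/2) (Cs t) ≤ ip i j (Cs t)`, so `ex = 0`. A member `E` of `L` not associated to a `Cs t`: `dX E ≤ (L.map dX).sum =: β`, `T β ≤ 12 r ≤ (12/100) S T`, so `100 dX E ≤ 12 S`, in the same way `100 dY E ≤ 12 T`; so `dX E ≤ S`, `dY E ≤ T` and `nn Z E + 1 ≤ (dX E + 1)(dY E + 1)`,
`2 nn Z E ≤ 2 (dX E dY E + dX E + dY E) ≤ S dY E + T dX E ≤ ip i j E`: `100 * 2 dX E dY E ≤ 12 (S dY E + T dX E)`, and `2 dX E ≤ (88/100) T dX E`, `2 dY E ≤ (88/100) S dY E` as `S, T ≥ 3`. So `ex = 0`. Hence both sums are equal. -/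
def CMP_stmt : Prop := ∀ (Z : Finset (ℂ × ℂ)) (S T : ℕ), 3 ≤ S → 3 ≤ T → 100 * Z.card ≤ S * T → ∀ L : List AA, Cvs L →
  T * (L.map dX).sum + S * (L.map dY).sum ≤ 12 * Z.card →
  (∀ E : AA, Irreducible E → (∀ E' ∈ L, ¬ Associated E E') → 2 * nn Z E ≤ ip (S / 2) (T / 2) E) →
  ∀ (m : ℕ) (Cs : Fin m → AA) (n : Fin m → ℕ), (∀ t, Irreducible (Cs t)) → (∀ t t', t ≠ t' → ¬ Associated (Cs t) (Cs t')) →
  (∀ t, nn Z (Cs t) = n t) →
  (∀ E : AA, Irreducible E → (∀ t, ¬ Associated E (Cs t)) → dX E ≤ S → dY E ≤ T → nn Z E + 1 ≤ (dX E + 1) * (dY E + 1)) →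
  ∀ i j : ℕ, S ≤ i → T ≤ j → FL Z L i j = Fn Z.card m (fun t => dX (Cs t)) (fun t => dY (Cs t)) n i j

/-- **REA** (short-medium). uses: CUR, SL2, DIR, CMP. Realization. Let `k = r - ∑ n_t`. Data with `k` further items `(1, 0, 1)` (index type `Fin (m + k)`, `Fin.append`): `ex 1 (i * 0 + j * 1) = 0` for `j ≥ 2`, so `Fn` does not change for `j ≥ T ≥ 3`, and the sum is `r`. `Cs t = cv (a t) (b t) (t + 1)` (CUR), SL2 with `(p, q) = (S, T)`: `Z`, `#Z = r`.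
`L` from DIR, CMP: `FL = Fn`. -/
def REA_stmt : Prop := ∀ (r m : ℕ) (a b n : Fin m → ℕ) (S T : ℕ), 3 ≤ S → 3 ≤ T → S ≤ 2 * r → T ≤ 2 * r → 100 * r ≤ S * T → Data r m a b n →
  ∃ Z : Finset (ℂ × ℂ), Z.card = r ∧ ∀ i j : ℕ, S ≤ i → T ≤ j → |HH Z i j - Fn r m a b n i j| * (S * T) ≤ 264 * (r : ℤ) ^ 2

/-! ## I. The affine model and the theorem -/

open Pool.Agent.helper97.FP in
/-- **AFF** (medium). From `Pool/Agent/helper97/FP` (`Geo2.lean`, `Main.lean`; imported): `exists_good`, `aff_inj`, `hilbert_eq_DV`, `pt`, `pt_good`. (1) `t, s` with all `P ∈ Y` good; `Z = Y.image (aff t s)`, `#Z = #Y` (`aff_inj`); `hilbert_eq_DV`. (2) `Y = Z.image pt`, `aff 0 0 (pt z) = z`. In both cases it remains: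
`finrank (DV Z i j) = hd (JJ Z two) i j`: the linear map `mk i j` (Defs) is injective with range `V i j`, and `mk i j v ∈ JJ Z two ↔ ∀ z ∈ Z, Dbl v z`: `ev z (mk i j v) = ∑ v p z.1^p.1 z.2^p.2`, `Dx`, `Dy` of the monomials (`FP97.Dbl` is exactly `Db`). The truncated subtraction in `hilbert` is harmless (`hd ≤ (i+1)(j+1)`). -/
def AFF_stmt : Prop := (∀ Y : Finset Point, ∃ Z : Finset (ℂ × ℂ), Z.card = Y.card ∧ ∀ i j, (hilbert (doubleIdeal Y) i j : ℤ) = HH Z i j) ∧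
  ∀ Z : Finset (ℂ × ℂ), ∃ Y : Finset Point, Y.card = Z.card ∧ ∀ i j, (hilbert (doubleIdeal Y) i j : ℤ) = HH Z i j

open Pool.Agent.helper97.FP in
/-- THEOREM: the Hilbert functions of `r` double points for `i ≥ S`, `j ≥ T` up to the error `264 r²/(S T)` -/
def Main_stmt : Prop := ∀ r S T : ℕ, 3 ≤ S → 3 ≤ T → S ≤ 2 * r → T ≤ 2 * r → 100 * r ≤ S * T →
  (∀ Y : Finset Point, Y.card = r → ∃ (m : ℕ) (a b n : Fin m → ℕ), Data r m a b n ∧
    ∀ i j : ℕ, S ≤ i → T ≤ j → |(hilbert (doubleIdeal Y) i j : ℤ) - Fn r m a b n i j| * (S * T) ≤ 264 * (r : ℤ) ^ 2) ∧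
  ∀ (m : ℕ) (a b n : Fin m → ℕ), Data r m a b n → ∃ Y : Finset Point, Y.card = r ∧
    ∀ i j : ℕ, S ≤ i → T ≤ j → |(hilbert (doubleIdeal Y) i j : ℤ) - Fn r m a b n i j| * (S * T) ≤ 264 * (r : ℤ) ^ 2

/-! ## J. The limit functions -/

/-- the contribution of a curve of type `(a, b)` with mass `ν` -/
def phi (a b : ℕ) (ν x y : ℝ) : ℝ := max 0 (2 * ν - (x * b + y * a)) + max 0 (ν - (x * b + y * a))

open Filter Topology in
open Pool.Agent.helper97.FP in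
/-- `h` is a limit of normalized Hilbert functions -/
def IsLim (h : ℝ → ℝ → ℝ) : Prop := ∃ (r : ℕ → ℕ) (Y : ℕ → Finset Point), (∀ k, (Y k).card = r k) ∧ Tendsto r atTop atTop ∧
  ∀ x y : ℝ, 0 < x → 0 < y → Tendsto (fun k => (hilbert (doubleIdeal (Y k)) ⌊x * r k⌋₊ ⌊y * r k⌋₊ : ℝ) / r k) atTop (𝓝 (h x y))

/-- `h` is given by types and masses -/
def IsMass (h : ℝ → ℝ → ℝ) : Prop := ∃ (a b : ℕ → ℕ) (ν : ℕ → ℝ), (∀ t, Ty (a t) (b t)) ∧ (∀ t, 0 ≤ ν t) ∧ Summable ν ∧ ∑' t, ν t ≤ 1 ∧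
  ∀ x y : ℝ, 0 < x → 0 < y → h x y = 3 - ∑' t, phi (a t) (b t) (ν t) x y

/-- THEOREM: the limit functions -/
def Lim_stmt : Prop := ∀ h : ℝ → ℝ → ℝ, IsLim h ↔ IsMass h

open Filter Topology in
/-- **NRM** (short; pure). `T = sqrt r * sqrt (sqrt r)` (`Nat.sqrt`): for large `r`: `3 ≤ T ≤ 2r`, `100 r ≤ T²`, `T = o(r)`, `r²/T² = o(r)`. (`sqrt r ≤ √r < sqrt r + 1`.) -/
def NRM_stmt : Prop := ∃ T : ℕ → ℕ, (∀ᶠ r in atTop, 3 ≤ T r ∧ T r ≤ 2 * r ∧ 100 * r ≤ T r * T r) ∧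
  Tendsto (fun r : ℕ => (T r : ℝ) / r) atTop (𝓝 0) ∧ Tendsto (fun r : ℕ => (r : ℝ) / (T r : ℝ) ^ 2) atTop (𝓝 0)

/-- **PHI** (short; pure). Elementary facts on `phi`. (1) `max` of nonnegative... (2) if `2ν ≤ x b + y a` both terms are `0`. (3) homogeneity with `ex`: `ex n (i b + j a) / r = phi a b (n/r) (i/r) (j/r)` (truncated subtraction is `max 0`). (4) `|phi a b ν x y - phi a b ν' x' y'| ≤ 3 |ν - ν'| + 2 b |x - x'| + 2 a |y - y'|` (`max 0` is 1-Lipschitz). -/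
def PHI_stmt : Prop := (∀ (a b : ℕ) (ν x y : ℝ), 0 ≤ phi a b ν x y) ∧
  (∀ (a b : ℕ) (ν x y : ℝ), 0 ≤ ν → 2 * ν ≤ x * b + y * a → phi a b ν x y = 0) ∧
  (∀ (a b n r i j : ℕ), 1 ≤ r → (ex n (i * b + j * a) : ℝ) / r = phi a b (n / r) (i / r) (j / r)) ∧
  ∀ (a b : ℕ) (ν ν' x x' y y' : ℝ), |phi a b ν x y - phi a b ν' x' y'| ≤ 3 * |ν - ν'| + 2 * b * |x - x'| + 2 * a * |y - y'|

open Filter Topology in
/-- **CPT** (medium, long; pure analysis). Compactness. For every `k` finite data `(a, b, ν)` with `∑ ν ≤ 1`, types `Ty`. For a type `τ = (a, b)` let `ν^k(τ, 0) ≥ ν^k(τ, 1) ≥ ...` be the masses of the items of type `τ` in decreasing order (then zeros): `(j + 1) ν^k(τ, j) ≤ 1`, `∑_(τ, j) ν^k(τ, j) = ∑ ν ≤ 1`,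
and `∑_t phi = ∑_(τ, j) phi(τ, ν^k(τ, j))`. `[0,1]^(ℕ × ℕ × ℕ)` is a compact metrizable space (`isCompact_univ_pi`, `IsCompact.tendsto_subseq`): a subsequence converges pointwise, to `ν(τ, j)`; finite partial sums are `≤ 1`. For `x, y > 0`, `δ = min x y`: `phi(τ, ν^k(τ, j)) ≠ 0` implies
`2 ν^k(τ, j) > δ (a + b)`, so `a + b < 2/δ` and `j + 1 < 2/δ`: only finitely many `(τ, j)` (independent of `k`) matter, and `phi` is continuous in `ν`: convergence of the sums. Enumerate `ℕ × ℕ × ℕ` by `ℕ`; replace the types which are not `Ty` (their masses are `0`) by `(1, 0)`.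
(To avoid the sorting: `ν^k(τ, j)` = the largest `c ∈ {0} ∪ {ν_t}` such that at least `j + 1` items of type `τ` have mass `≥ c`; or sort the multiset of the masses with `Multiset.sort`.) -/
def CPT_stmt : Prop := ∀ (m : ℕ → ℕ) (a b : ∀ k, Fin (m k) → ℕ) (ν : ∀ k, Fin (m k) → ℝ), (∀ k t, Ty (a k t) (b k t)) → (∀ k t, 0 ≤ ν k t) →
  (∀ k, ∑ t, ν k t ≤ 1) → ∃ (s : ℕ → ℕ) (a' b' : ℕ → ℕ) (ν' : ℕ → ℝ), StrictMono s ∧ (∀ t, Ty (a' t) (b' t)) ∧ (∀ t, 0 ≤ ν' t) ∧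
    Summable ν' ∧ ∑' t, ν' t ≤ 1 ∧ ∀ x y : ℝ, 0 < x → 0 < y →
      Tendsto (fun k => ∑ t, phi (a (s k) t) (b (s k) t) (ν (s k) t) x y) atTop (𝓝 (∑' t, phi (a' t) (b' t) (ν' t) x y))

/-- **LM1** (medium). uses: Main, NRM, PHI, CPT. `IsLim h → IsMass h`. For `k` with `r_k` large (NRM) take data from `Main` with `S = T = T (r_k)`; otherwise no items. `ν = n/r_k`. `CPT` gives a subsequence and the limit data. For `x, y > 0`, `i = ⌊x r⌋`, `j = ⌊y r⌋`: `i, j ≥ T(r)` for large `r`, `|H(i,j)/r - (3 - ∑ phi(ν, i/r, j/r))| ≤ 264 r/T²→ 0`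
(PHI (3)); and `|∑ phi(ν, i/r, j/r) - ∑ phi(ν, x, y)| → 0`: only items with `2 ν_t > (min x y / 2)(a + b)` (for large `r`) contribute to one of the sums, so `∑ (a + b) ≤ 4/min x y` over these items, and PHI (4) bounds the difference by `∑ (2b |i/r - x| + 2a |j/r - y|) ≤ (8/min x y) / r`. So `h x y = 3 - ∑' phi`. -/
def LM1_stmt : Prop := Main_stmt → ∀ h : ℝ → ℝ → ℝ, IsLim h → IsMass h

/-- **LM2** (medium). uses: Main, NRM, PHI. `IsMass h → IsLim h`. `r k = k + k₀` (large, NRM); items `t < k`, `n_t = ⌊ν_t r⌋`, `∑ n_t ≤ r`. `Y k` from the second half of `Main` with `S = T = T(r)`. For `x, y > 0`: `|H(i,j)/r - (3 - ∑_(t<k) phi(n_t/r, i/r, j/r))| → 0`; only the finitely many `t` with `4 ν_t > min x y` contribute for large `r`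
(`n_t/r ≤ ν_t`), and for these `n_t/r → ν_t`, `i/r → x`, `j/r → y`. -/
def LM2_stmt : Prop := Main_stmt → ∀ h : ℝ → ℝ → ℝ, IsMass h → IsLim h

end

end Pool.Agent.HFN
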